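import Pool.Agent.H397Z.CurvLem

/-!
The space `S²_B(Λ² ℝⁿ)` of algebraic curvature operators, the `O(n)`-action, the quadratic map
`Q(R) = R² + R^#`, curvature cones and invariance under the ODE `R' = Q(R)`.
-/

namespace Pool.Agent.H397Z.Curv

open Finset

/-- The linear space of algebraic curvature operators inside the four-index arrays. -/
def curvSpace (n : ℕ) : Submodule ℝ (Tensor n) where
  carrier := {R | IsCurv R}
  add_mem' := IsCurv.add
  zero_mem' := isCurv_zero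
  smul_mem' := fun c _ h => h.smul c

/-- The space `S²_B(Λ² ℝⁿ)`, a finite-dimensional normed space. -/
abbrev CurvOp (n : ℕ) : Type := ↥(curvSpace n)

/-- The action of an `n × n` matrix (used for orthogonal matrices) on curvature operators. -/
def actOp {n : ℕ} (g : Matrix (Fin n) (Fin n) ℝ) (R : CurvOp n) : CurvOp n :=
  ⟨act g R.1, IsCurv.act R.2 g⟩

/-- `Q(R) = R² + R^#`. -/
noncomputable def Q {n : ℕ} (R : CurvOp n) : CurvOp n :=
  ⟨sq R.1 + sharp R.1, IsCurv.sq_add_sharp R.2⟩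

/-- The identity operator (curvature operator of the round sphere). -/
def idOp (n : ℕ) : CurvOp n := ⟨idT n, isCurv_idT n⟩

/-- Scalar curvature. -/
def scal {n : ℕ} (R : CurvOp n) : ℝ := ∑ i, ∑ j, R.1 i j i j

/-- `⟨R (x ∧ y), z ∧ w⟩`. -/
def ev {n : ℕ} (R : CurvOp n) (x y z w : Fin n → ℝ) : ℝ :=
  ∑ a, ∑ b, ∑ c, ∑ d, x a * y b * z c * w d * R.1 a b c d

/-- Nonnegative sectional curvature: `⟨R (x ∧ y), x ∧ y⟩ ≥ 0` for orthonormal `x, y`. -/
def SecNonneg {n : ℕ} (R : CurvOp n) : Prop :=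
  ∀ x y : Fin n → ℝ, x ⬝ᵥ x = 1 → y ⬝ᵥ y = 1 → x ⬝ᵥ y = 0 → 0 ≤ ev R x y x y

/-- Invariance of a set under the orthogonal group. -/
def OrthInvariant {n : ℕ} (C : Set (CurvOp n)) : Prop :=
  ∀ g ∈ Matrix.orthogonalGroup (Fin n) ℝ, ∀ R ∈ C, actOp g R ∈ C

/-- A closed convex `O(n)`-invariant cone containing the identity in its interior. -/
def IsCurvCone {n : ℕ} (C : Set (CurvOp n)) : Prop :=
  IsClosed C ∧ Convex ℝ C ∧ (∀ R ∈ C, ∀ c : ℝ, 0 < c → c • R ∈ C) ∧ OrthInvariant C ∧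
    idOp n ∈ interior C

/-- Every solution of `R' = Q(R)` on a time interval `[0, T]` that starts in `C` stays in `C`. -/
def RFInvariant {n : ℕ} (C : Set (CurvOp n)) : Prop :=
  ∀ (γ : ℝ → CurvOp n) (T : ℝ), 0 ≤ T →
    (∀ t ∈ Set.Icc (0 : ℝ) T, HasDerivWithinAt γ (Q (γ t)) (Set.Icc (0 : ℝ) T) t) →
    γ 0 ∈ C → γ T ∈ C

end Pool.Agent.H397Z.Curv
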