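import Pool.Agent.H397Z.CurvRaw

namespace Pool.Agent.H397Z.Curv

open Finset Matrix
open scoped Kronecker

variable {n m r : ℕ}

theorem act_eq_sum (A : Matrix (Fin n) (Fin m) ℝ) (R : Tensor m) (i j k l : Fin n) :
    act A R i j k l = ∑ p : Fin m × Fin m × Fin m × Fin m,
      A i p.1 * A j p.2.1 * A k p.2.2.1 * A l p.2.2.2 * R p.1 p.2.1 p.2.2.1 p.2.2.2 := by
  simp only [act, Fintype.sum_prod_type]

theorem act_swap12 (A : Matrix (Fin n) (Fin m) ℝ) (R : Tensor m) (i j k l : Fin n) :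
    act A (fun a b c d => R b a c d) i j k l = act A R j i k l := by
  rw [act_eq_sum, act_eq_sum]
  refine Fintype.sum_equiv
    ⟨fun p => (p.2.1, p.1, p.2.2.1, p.2.2.2), fun p => (p.2.1, p.1, p.2.2.1, p.2.2.2),
      fun _ => rfl, fun _ => rfl⟩ _ _ (fun p => ?_)
  simp only [Equiv.coe_fn_mk]; ring

theorem act_swap23 (A : Matrix (Fin n) (Fin m) ℝ) (R : Tensor m) (i j k l : Fin n) :
    act A (fun a b c d => R a c b d) i j k l = act A R i k j l := by
  rw [act_eq_sum, act_eq_sum]
  refine Fintype.sum_equiv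
    ⟨fun p => (p.1, p.2.2.1, p.2.1, p.2.2.2), fun p => (p.1, p.2.2.1, p.2.1, p.2.2.2),
      fun _ => rfl, fun _ => rfl⟩ _ _ (fun p => ?_)
  simp only [Equiv.coe_fn_mk]; ring

theorem act_swap34 (A : Matrix (Fin n) (Fin m) ℝ) (R : Tensor m) (i j k l : Fin n) :
    act A (fun a b c d => R a b d c) i j k l = act A R i j l k := by
  rw [act_eq_sum, act_eq_sum]
  refine Fintype.sum_equiv
    ⟨fun p => (p.1, p.2.1, p.2.2.2, p.2.2.1), fun p => (p.1, p.2.1, p.2.2.2, p.2.2.1),
      fun _ => rfl, fun _ => rfl⟩ _ _ (fun p => ?_)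
  simp only [Equiv.coe_fn_mk]; ring

theorem act_pair (A : Matrix (Fin n) (Fin m) ℝ) (R : Tensor m) (i j k l : Fin n) :
    act A (fun a b c d => R c d a b) i j k l = act A R k l i j := by
  rw [act_eq_sum, act_eq_sum]
  refine Fintype.sum_equiv
    ⟨fun p => (p.2.2.1, p.2.2.2, p.1, p.2.1), fun p => (p.2.2.1, p.2.2.2, p.1, p.2.1),
      fun _ => rfl, fun _ => rfl⟩ _ _ (fun p => ?_)
  simp only [Equiv.coe_fn_mk]; ring

theorem act_cyc (A : Matrix (Fin n) (Fin m) ℝ) (R : Tensor m) (i j k l : Fin n) :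
    act A (fun a b c d => R a c d b) i j k l = act A R i k l j := by
  rw [act_eq_sum, act_eq_sum]
  refine Fintype.sum_equiv
    ⟨fun p => (p.1, p.2.2.1, p.2.2.2, p.2.1), fun p => (p.1, p.2.2.2, p.2.1, p.2.2.1),
      fun _ => rfl, fun _ => rfl⟩ _ _ (fun p => ?_)
  simp only [Equiv.coe_fn_mk]; ring

theorem act_cyc' (A : Matrix (Fin n) (Fin m) ℝ) (R : Tensor m) (i j k l : Fin n) :
    act A (fun a b c d => R a d b c) i j k l = act A R i l j k := by
  rw [act_eq_sum, act_eq_sum]
  refine Fintype.sum_equiv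
    ⟨fun p => (p.1, p.2.2.2, p.2.1, p.2.2.1), fun p => (p.1, p.2.2.1, p.2.2.2, p.2.1),
      fun _ => rfl, fun _ => rfl⟩ _ _ (fun p => ?_)
  simp only [Equiv.coe_fn_mk]; ring

/-- `act A` as a linear map. -/
def actL (A : Matrix (Fin n) (Fin m) ℝ) : Tensor m →ₗ[ℝ] Tensor n where
  toFun := act A
  map_add' R S := by
    funext i j k l
    simp only [act_eq_sum, Pi.add_apply, mul_add, Finset.sum_add_distrib]
  map_smul' c R := by
    funext i j k l
    simp only [act_eq_sum, Pi.smul_apply, smul_eq_mul, RingHom.id_apply, Finset.mul_sum]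
    exact Finset.sum_congr rfl fun p _ => by ring

theorem act_add (A : Matrix (Fin n) (Fin m) ℝ) (R S : Tensor m) :
    act A (R + S) = act A R + act A S := (actL A).map_add R S

theorem act_sub (A : Matrix (Fin n) (Fin m) ℝ) (R S : Tensor m) :
    act A (R - S) = act A R - act A S := (actL A).map_sub R S

theorem act_neg (A : Matrix (Fin n) (Fin m) ℝ) (R : Tensor m) :
    act A (-R) = -act A R := (actL A).map_neg R

theorem act_smul (A : Matrix (Fin n) (Fin m) ℝ) (c : ℝ) (R : Tensor m) :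
    act A (c • R) = c • act A R := (actL A).map_smul c R

theorem act_zero (A : Matrix (Fin n) (Fin m) ℝ) : act A (0 : Tensor m) = 0 := (actL A).map_zero

theorem IsCurv.act {R : Tensor m} (h : IsCurv R) (A : Matrix (Fin n) (Fin m) ℝ) :
    IsCurv (act A R) := by
  obtain ⟨h1, h2, h3⟩ := h
  refine ⟨fun i j k l => ?_, fun i j k l => ?_, fun i j k l => ?_⟩
  · rw [← act_swap12]
    have : (fun a b c d => R b a c d) = -R := by
      funext a b c d; simp only [Pi.neg_apply]; exact h1 a b c d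
    rw [this, act_neg]; rfl
  · rw [← act_pair]
    have : (fun a b c d => R c d a b) = R := by
      funext a b c d; exact h2 a b c d
    rw [this]
  · rw [← act_cyc A R i j k l, ← act_cyc' A R i j k l]
    have h0 : R + (fun a b c d => R a c d b) + (fun a b c d => R a d b c) = 0 := by
      funext a b c d; simp only [Pi.add_apply, Pi.zero_apply]; exact h3 a b c d
    have := congrArg (Curv.act A) h0
    rw [act_add, act_add, act_zero] at this
    exact congrFun (congrFun (congrFun (congrFun this i) j) k) l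

/-- A tensor as a matrix indexed by pairs. -/
def hat (R : Tensor n) : Matrix (Fin n × Fin n) (Fin n × Fin n) ℝ :=
  Matrix.of fun p q => R p.1 p.2 q.1 q.2

theorem hat_inj {R S : Tensor n} (h : hat R = hat S) : R = S := by
  funext i j k l
  exact congrFun (congrFun h (i, j)) (k, l)

theorem hat_act (A : Matrix (Fin n) (Fin m) ℝ) (R : Tensor m) :
    hat (act A R) = (A ⊗ₖ A) * hat R * (A ⊗ₖ A)ᵀ := by
  ext p q
  simp only [hat, Matrix.of_apply, Matrix.mul_apply, Matrix.transpose_apply,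
    Matrix.kroneckerMap_apply, Finset.sum_mul, act_eq_sum]
  rw [← Fintype.sum_prod_type']
  refine Fintype.sum_equiv
    ⟨fun p => ((p.2.2.1, p.2.2.2), (p.1, p.2.1)), fun p => (p.2.1, p.2.2, p.1.1, p.1.2),
      fun _ => rfl, fun _ => rfl⟩ _ _ (fun p => ?_)
  simp only [Equiv.coe_fn_mk]; ring

theorem act_act (A : Matrix (Fin n) (Fin m) ℝ) (B : Matrix (Fin m) (Fin r) ℝ) (R : Tensor r) :
    act A (act B R) = act (A * B) R := by
  apply hat_inj
  rw [hat_act, hat_act, hat_act, Matrix.mul_kronecker_mul, Matrix.transpose_mul]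
  simp only [Matrix.mul_assoc]

theorem act_one (R : Tensor n) : act (1 : Matrix (Fin n) (Fin n) ℝ) R = R := by
  apply hat_inj
  rw [hat_act, Matrix.one_kronecker_one]
  simp

/-- Contraction over the last two indices. -/
def con (R S : Tensor n) : Tensor n := fun i j k l => ∑ p, ∑ q, R i j p q * S k l p q

theorem hat_con (R S : Tensor n) : hat (con R S) = hat R * (hat S)ᵀ := by
  ext p q
  simp only [hat, con, Matrix.of_apply, Matrix.mul_apply, Matrix.transpose_apply,
    Fintype.sum_prod_type]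

theorem con_act {A : Matrix (Fin n) (Fin m) ℝ} (hA : Aᵀ * A = 1) (R S : Tensor m) :
    con (act A R) (act A S) = act A (con R S) := by
  apply hat_inj
  have hK : (A ⊗ₖ A)ᵀ * (A ⊗ₖ A) = 1 := by
    rw [← Matrix.kroneckerMap_transpose, ← Matrix.mul_kronecker_mul, hA,
      Matrix.one_kronecker_one]
  rw [hat_con, hat_act, hat_act, hat_act, hat_con, Matrix.transpose_mul, Matrix.transpose_mul,
    Matrix.transpose_transpose]
  calc (A ⊗ₖ A) * hat R * (A ⊗ₖ A)ᵀ * ((A ⊗ₖ A) * ((hat S)ᵀ * (A ⊗ₖ A)ᵀ))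
      = (A ⊗ₖ A) * hat R * ((A ⊗ₖ A)ᵀ * (A ⊗ₖ A)) * ((hat S)ᵀ * (A ⊗ₖ A)ᵀ) := by
        simp only [Matrix.mul_assoc]
    _ = (A ⊗ₖ A) * (hat R * (hat S)ᵀ) * (A ⊗ₖ A)ᵀ := by
        rw [hK]; simp only [Matrix.mul_assoc, Matrix.one_mul]

/-- The middle swap. -/
def mid (R : Tensor n) : Tensor n := fun a b c d => R a c b d

theorem mid_act (A : Matrix (Fin n) (Fin m) ℝ) (R : Tensor m) :
    mid (act A R) = act A (mid R) := by
  funext i j k l
  exact (act_swap23 A R i j k l).symm

theorem sq_eq (R : Tensor n) : sq R = (1 / 2 : ℝ) • con R R := by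
  funext i j k l; simp [sq, con]

theorem sharp_eq (R : Tensor n) :
    sharp R = mid (con (mid R) (mid R)) - fun i j k l => mid (con (mid R) (mid R)) i j l k := by
  funext i j k l
  simp only [sharp, mid, con, Pi.sub_apply, Finset.sum_sub_distrib]

theorem sq_act {A : Matrix (Fin n) (Fin m) ℝ} (hA : Aᵀ * A = 1) (R : Tensor m) :
    sq (act A R) = act A (sq R) := by
  rw [sq_eq, sq_eq, con_act hA, act_smul]

theorem sharp_act {A : Matrix (Fin n) (Fin m) ℝ} (hA : Aᵀ * A = 1) (R : Tensor m) :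
    sharp (act A R) = act A (sharp R) := by
  rw [sharp_eq, sharp_eq, mid_act, con_act hA, mid_act, act_sub]
  congr 1
  funext i j k l
  exact (act_swap34 A _ i j k l).symm

/-- Hamilton's tensor `B_{ijkl} = ∑ R_{ipjq} R_{kplq}`. -/
def Bt (R : Tensor n) : Tensor n := fun i j k l => ∑ p, ∑ q, R i p j q * R k p l q

theorem Bt_pair (R : Tensor n) (i j k l : Fin n) : Bt R k l i j = Bt R i j k l := by
  simp only [Bt]
  exact Finset.sum_congr rfl fun p _ => Finset.sum_congr rfl fun q _ => by ring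

theorem IsCurv.Bt_swap {R : Tensor n} (h : IsCurv R) (i j k l : Fin n) :
    Bt R j i l k = Bt R i j k l := by
  simp only [Bt]
  rw [Finset.sum_comm]
  exact Finset.sum_congr rfl fun p _ => Finset.sum_congr rfl fun q _ => by
    rw [h.2.1 i p j q, h.2.1 k p l q]

theorem IsCurv.skew34 {R : Tensor n} (h : IsCurv R) (i j k l : Fin n) :
    R i j l k = - R i j k l := by
  rw [h.2.1 l k i j, h.1 k l i j, h.2.1 i j k l]

theorem IsCurv.sq_Bt {R : Tensor n} (h : IsCurv R) (i j k l : Fin n) :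
    sq R i j k l = Bt R i j k l - Bt R i j l k := by
  have e1 : ∀ a b p q, R a b p q = R a p b q - R a q b p := by
    intro a b p q
    have := h.2.2 a b p q
    rw [h.skew34 a p b q] at this
    linarith
  have s1 : ∑ p, ∑ q, R i q j p * R k q l p = Bt R i j k l := by
    simp only [Bt]; rw [Finset.sum_comm]
  have s2 : ∑ p, ∑ q, R i p j q * R k q l p = Bt R i j l k := by
    simp only [Bt]
    exact Finset.sum_congr rfl fun p _ => Finset.sum_congr rfl fun q _ => by
      rw [h.2.1 l p k q]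
  have s3 : ∑ p, ∑ q, R i q j p * R k p l q = Bt R i j l k := by
    rw [Finset.sum_comm]; exact s2
  have s4 : ∑ p, ∑ q, R i j p q * R k l p q =
      ∑ p, ∑ q, R i p j q * R k p l q - ∑ p, ∑ q, R i p j q * R k q l p -
        ∑ p, ∑ q, R i q j p * R k p l q + ∑ p, ∑ q, R i q j p * R k q l p := by
    simp only [← Finset.sum_sub_distrib, ← Finset.sum_add_distrib]
    exact Finset.sum_congr rfl fun p _ => Finset.sum_congr rfl fun q _ => by
      rw [e1 i j p q, e1 k l p q]; ring
  have s0 : ∑ p, ∑ q, R i p j q * R k p l q = Bt R i j k l := rfl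
  simp only [sq]
  rw [s4, s0, s1, s2, s3]; ring

theorem sharp_Bt (R : Tensor n) (i j k l : Fin n) :
    sharp R i j k l = Bt R i k j l - Bt R i l j k := by
  simp only [sharp, Bt, Finset.sum_sub_distrib]

theorem IsCurv.sq_add_sharp {R : Tensor n} (h : IsCurv R) : IsCurv (sq R + sharp R) := by
  refine ⟨fun i j k l => ?_, fun i j k l => ?_, fun i j k l => ?_⟩
  · simp only [Pi.add_apply, h.sq_Bt, sharp_Bt]
    rw [h.Bt_swap i j l k, h.Bt_swap i j k l, Bt_pair R i l j k, Bt_pair R i k j l]; ring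
  · simp only [Pi.add_apply, h.sq_Bt, sharp_Bt]
    rw [Bt_pair R i j k l, Bt_pair R j i k l, h.Bt_swap i j l k, h.Bt_swap i k j l,
      h.Bt_swap j k i l, Bt_pair R i l j k]
  · simp only [Pi.add_apply, h.sq_Bt, sharp_Bt]; ring

theorem isCurv_idT (n : ℕ) : IsCurv (idT n) := by
  refine ⟨fun i j k l => ?_, fun i j k l => ?_, fun i j k l => ?_⟩
  · simp only [idT]; ring
  · simp only [idT, eq_comm (a := k) (b := i), eq_comm (a := l) (b := j),
      eq_comm (a := k) (b := j), eq_comm (a := l) (b := i)]; ring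
  · simp only [idT, eq_comm (a := k) (b := j), eq_comm (a := l) (b := j),
      eq_comm (a := l) (b := k)]; ring

theorem IsCurv.add {R S : Tensor n} (hR : IsCurv R) (hS : IsCurv S) : IsCurv (R + S) := by
  refine ⟨fun i j k l => ?_, fun i j k l => ?_, fun i j k l => ?_⟩
  · simp only [Pi.add_apply, hR.1 i j k l, hS.1 i j k l]; ring
  · simp only [Pi.add_apply, hR.2.1 i j k l, hS.2.1 i j k l]
  · simp only [Pi.add_apply]; linarith [hR.2.2 i j k l, hS.2.2 i j k l]

theorem IsCurv.smul {R : Tensor n} (hR : IsCurv R) (c : ℝ) : IsCurv (c • R) := by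
  refine ⟨fun i j k l => ?_, fun i j k l => ?_, fun i j k l => ?_⟩
  · simp only [Pi.smul_apply, smul_eq_mul, hR.1 i j k l]; ring
  · simp only [Pi.smul_apply, smul_eq_mul, hR.2.1 i j k l]
  · simp only [Pi.smul_apply, smul_eq_mul]
    linear_combination c * hR.2.2 i j k l

theorem isCurv_zero : IsCurv (0 : Tensor n) :=
  ⟨fun _ _ _ _ => by simp, fun _ _ _ _ => by simp, fun _ _ _ _ => by simp⟩

end Pool.Agent.H397Z.Curv
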