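import Mathlib

/-!
Algebraic curvature operators on `Λ² ℝⁿ`, written in components
`R i j k l = ⟨R (e_i ∧ e_j), e_k ∧ e_l⟩`.
-/

namespace Pool.Agent.H397Z.Curv

open Finset

/-- Four-index arrays of real numbers. -/
abbrev Tensor (n : ℕ) : Type := Fin n → Fin n → Fin n → Fin n → ℝ

/-- The components of a self-adjoint endomorphism of `Λ² ℝⁿ` satisfying the first Bianchi
identity: skew in the first pair, symmetric under exchange of the pairs, and Bianchi. -/
def IsCurv {n : ℕ} (R : Tensor n) : Prop :=
  (∀ i j k l, R j i k l = - R i j k l) ∧ (∀ i j k l, R k l i j = R i j k l) ∧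
    (∀ i j k l, R i j k l + R i k l j + R i l j k = 0)

/-- The action of a matrix `A` on all four indices. -/
def act {n m : ℕ} (A : Matrix (Fin n) (Fin m) ℝ) (R : Tensor m) : Tensor n :=
  fun i j k l => ∑ a, ∑ b, ∑ c, ∑ d, A i a * A j b * A k c * A l d * R a b c d

/-- The components of `R²` (composition of endomorphisms of `Λ² ℝⁿ`):
`∑_{p<q} R_{ijpq} R_{klpq}`. -/
noncomputable def sq {n : ℕ} (R : Tensor n) : Tensor n :=
  fun i j k l => (1 / 2 : ℝ) * ∑ p, ∑ q, R i j p q * R k l p q

/-- The components of the Lie algebra square `R^#` under `Λ² ℝⁿ ≅ so(n)`. -/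
def sharp {n : ℕ} (R : Tensor n) : Tensor n :=
  fun i j k l => ∑ p, ∑ q, (R i p k q * R j p l q - R i p l q * R j p k q)

/-- The components of the identity of `Λ² ℝⁿ`. -/
def idT (n : ℕ) : Tensor n :=
  fun i j k l => (if i = k then 1 else 0) * (if j = l then 1 else 0) -
    (if i = l then 1 else 0) * (if j = k then 1 else 0)

end Pool.Agent.H397Z.Curv
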