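import Pool.Agent.H397Z.CurvDefs

namespace Pool.Agent.H397Z.Curv

open Finset

/-- A seven-parameter family of curvature tensors in dimension four. -/
def T (x y a b c d w : ℝ) : Tensor 4 := fun i j k l =>
  match i.val, j.val, k.val, l.val with
  | 0, 1, 0, 1 => x
  | 0, 1, 1, 0 => -x
  | 0, 1, 2, 3 => 2 * w
  | 0, 1, 3, 2 => -(2 * w)
  | 0, 2, 0, 2 => a
  | 0, 2, 1, 3 => w
  | 0, 2, 2, 0 => -a
  | 0, 2, 3, 1 => -w
  | 0, 3, 0, 3 => c
  | 0, 3, 1, 2 => -w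
  | 0, 3, 2, 1 => w
  | 0, 3, 3, 0 => -c
  | 1, 0, 0, 1 => -x
  | 1, 0, 1, 0 => x
  | 1, 0, 2, 3 => -(2 * w)
  | 1, 0, 3, 2 => 2 * w
  | 1, 2, 0, 3 => -w
  | 1, 2, 1, 2 => d
  | 1, 2, 2, 1 => -d
  | 1, 2, 3, 0 => w
  | 1, 3, 0, 2 => w
  | 1, 3, 1, 3 => b
  | 1, 3, 2, 0 => -w
  | 1, 3, 3, 1 => -b
  | 2, 0, 0, 2 => -a
  | 2, 0, 1, 3 => -w
  | 2, 0, 2, 0 => a
  | 2, 0, 3, 1 => w
  | 2, 1, 0, 3 => w
  | 2, 1, 1, 2 => -d
  | 2, 1, 2, 1 => d
  | 2, 1, 3, 0 => -w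
  | 2, 3, 0, 1 => 2 * w
  | 2, 3, 1, 0 => -(2 * w)
  | 2, 3, 2, 3 => y
  | 2, 3, 3, 2 => -y
  | 3, 0, 0, 3 => -c
  | 3, 0, 1, 2 => w
  | 3, 0, 2, 1 => -w
  | 3, 0, 3, 0 => c
  | 3, 1, 0, 2 => -w
  | 3, 1, 1, 3 => -b
  | 3, 1, 2, 0 => w
  | 3, 1, 3, 1 => b
  | 3, 2, 0, 1 => -(2 * w)
  | 3, 2, 1, 0 => 2 * w
  | 3, 2, 2, 3 => -y
  | 3, 2, 3, 2 => y
  | _, _, _, _ => 0

@[simp] theorem T_0000 (x y a b c d w : ℝ) : T x y a b c d w 0 0 0 0 = 0 := rfl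
@[simp] theorem T_0001 (x y a b c d w : ℝ) : T x y a b c d w 0 0 0 1 = 0 := rfl
@[simp] theorem T_0002 (x y a b c d w : ℝ) : T x y a b c d w 0 0 0 2 = 0 := rfl
@[simp] theorem T_0003 (x y a b c d w : ℝ) : T x y a b c d w 0 0 0 3 = 0 := rfl
@[simp] theorem T_0010 (x y a b c d w : ℝ) : T x y a b c d w 0 0 1 0 = 0 := rfl
@[simp] theorem T_0011 (x y a b c d w : ℝ) : T x y a b c d w 0 0 1 1 = 0 := rfl
@[simp] theorem T_0012 (x y a b c d w : ℝ) : T x y a b c d w 0 0 1 2 = 0 := rfl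
@[simp] theorem T_0013 (x y a b c d w : ℝ) : T x y a b c d w 0 0 1 3 = 0 := rfl
@[simp] theorem T_0020 (x y a b c d w : ℝ) : T x y a b c d w 0 0 2 0 = 0 := rfl
@[simp] theorem T_0021 (x y a b c d w : ℝ) : T x y a b c d w 0 0 2 1 = 0 := rfl
@[simp] theorem T_0022 (x y a b c d w : ℝ) : T x y a b c d w 0 0 2 2 = 0 := rfl
@[simp] theorem T_0023 (x y a b c d w : ℝ) : T x y a b c d w 0 0 2 3 = 0 := rfl
@[simp] theorem T_0030 (x y a b c d w : ℝ) : T x y a b c d w 0 0 3 0 = 0 := rfl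
@[simp] theorem T_0031 (x y a b c d w : ℝ) : T x y a b c d w 0 0 3 1 = 0 := rfl
@[simp] theorem T_0032 (x y a b c d w : ℝ) : T x y a b c d w 0 0 3 2 = 0 := rfl
@[simp] theorem T_0033 (x y a b c d w : ℝ) : T x y a b c d w 0 0 3 3 = 0 := rfl
@[simp] theorem T_0100 (x y a b c d w : ℝ) : T x y a b c d w 0 1 0 0 = 0 := rfl
@[simp] theorem T_0101 (x y a b c d w : ℝ) : T x y a b c d w 0 1 0 1 = x := rfl
@[simp] theorem T_0102 (x y a b c d w : ℝ) : T x y a b c d w 0 1 0 2 = 0 := rfl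
@[simp] theorem T_0103 (x y a b c d w : ℝ) : T x y a b c d w 0 1 0 3 = 0 := rfl
@[simp] theorem T_0110 (x y a b c d w : ℝ) : T x y a b c d w 0 1 1 0 = -x := rfl
@[simp] theorem T_0111 (x y a b c d w : ℝ) : T x y a b c d w 0 1 1 1 = 0 := rfl
@[simp] theorem T_0112 (x y a b c d w : ℝ) : T x y a b c d w 0 1 1 2 = 0 := rfl
@[simp] theorem T_0113 (x y a b c d w : ℝ) : T x y a b c d w 0 1 1 3 = 0 := rfl
@[simp] theorem T_0120 (x y a b c d w : ℝ) : T x y a b c d w 0 1 2 0 = 0 := rfl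
@[simp] theorem T_0121 (x y a b c d w : ℝ) : T x y a b c d w 0 1 2 1 = 0 := rfl
@[simp] theorem T_0122 (x y a b c d w : ℝ) : T x y a b c d w 0 1 2 2 = 0 := rfl
@[simp] theorem T_0123 (x y a b c d w : ℝ) : T x y a b c d w 0 1 2 3 = 2 * w := rfl
@[simp] theorem T_0130 (x y a b c d w : ℝ) : T x y a b c d w 0 1 3 0 = 0 := rfl
@[simp] theorem T_0131 (x y a b c d w : ℝ) : T x y a b c d w 0 1 3 1 = 0 := rfl
@[simp] theorem T_0132 (x y a b c d w : ℝ) : T x y a b c d w 0 1 3 2 = -(2 * w) := rfl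
@[simp] theorem T_0133 (x y a b c d w : ℝ) : T x y a b c d w 0 1 3 3 = 0 := rfl
@[simp] theorem T_0200 (x y a b c d w : ℝ) : T x y a b c d w 0 2 0 0 = 0 := rfl
@[simp] theorem T_0201 (x y a b c d w : ℝ) : T x y a b c d w 0 2 0 1 = 0 := rfl
@[simp] theorem T_0202 (x y a b c d w : ℝ) : T x y a b c d w 0 2 0 2 = a := rfl
@[simp] theorem T_0203 (x y a b c d w : ℝ) : T x y a b c d w 0 2 0 3 = 0 := rfl
@[simp] theorem T_0210 (x y a b c d w : ℝ) : T x y a b c d w 0 2 1 0 = 0 := rfl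
@[simp] theorem T_0211 (x y a b c d w : ℝ) : T x y a b c d w 0 2 1 1 = 0 := rfl
@[simp] theorem T_0212 (x y a b c d w : ℝ) : T x y a b c d w 0 2 1 2 = 0 := rfl
@[simp] theorem T_0213 (x y a b c d w : ℝ) : T x y a b c d w 0 2 1 3 = w := rfl
@[simp] theorem T_0220 (x y a b c d w : ℝ) : T x y a b c d w 0 2 2 0 = -a := rfl
@[simp] theorem T_0221 (x y a b c d w : ℝ) : T x y a b c d w 0 2 2 1 = 0 := rfl
@[simp] theorem T_0222 (x y a b c d w : ℝ) : T x y a b c d w 0 2 2 2 = 0 := rfl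
@[simp] theorem T_0223 (x y a b c d w : ℝ) : T x y a b c d w 0 2 2 3 = 0 := rfl
@[simp] theorem T_0230 (x y a b c d w : ℝ) : T x y a b c d w 0 2 3 0 = 0 := rfl
@[simp] theorem T_0231 (x y a b c d w : ℝ) : T x y a b c d w 0 2 3 1 = -w := rfl
@[simp] theorem T_0232 (x y a b c d w : ℝ) : T x y a b c d w 0 2 3 2 = 0 := rfl
@[simp] theorem T_0233 (x y a b c d w : ℝ) : T x y a b c d w 0 2 3 3 = 0 := rfl
@[simp] theorem T_0300 (x y a b c d w : ℝ) : T x y a b c d w 0 3 0 0 = 0 := rfl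
@[simp] theorem T_0301 (x y a b c d w : ℝ) : T x y a b c d w 0 3 0 1 = 0 := rfl
@[simp] theorem T_0302 (x y a b c d w : ℝ) : T x y a b c d w 0 3 0 2 = 0 := rfl
@[simp] theorem T_0303 (x y a b c d w : ℝ) : T x y a b c d w 0 3 0 3 = c := rfl
@[simp] theorem T_0310 (x y a b c d w : ℝ) : T x y a b c d w 0 3 1 0 = 0 := rfl
@[simp] theorem T_0311 (x y a b c d w : ℝ) : T x y a b c d w 0 3 1 1 = 0 := rfl
@[simp] theorem T_0312 (x y a b c d w : ℝ) : T x y a b c d w 0 3 1 2 = -w := rfl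
@[simp] theorem T_0313 (x y a b c d w : ℝ) : T x y a b c d w 0 3 1 3 = 0 := rfl
@[simp] theorem T_0320 (x y a b c d w : ℝ) : T x y a b c d w 0 3 2 0 = 0 := rfl
@[simp] theorem T_0321 (x y a b c d w : ℝ) : T x y a b c d w 0 3 2 1 = w := rfl
@[simp] theorem T_0322 (x y a b c d w : ℝ) : T x y a b c d w 0 3 2 2 = 0 := rfl
@[simp] theorem T_0323 (x y a b c d w : ℝ) : T x y a b c d w 0 3 2 3 = 0 := rfl
@[simp] theorem T_0330 (x y a b c d w : ℝ) : T x y a b c d w 0 3 3 0 = -c := rfl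
@[simp] theorem T_0331 (x y a b c d w : ℝ) : T x y a b c d w 0 3 3 1 = 0 := rfl
@[simp] theorem T_0332 (x y a b c d w : ℝ) : T x y a b c d w 0 3 3 2 = 0 := rfl
@[simp] theorem T_0333 (x y a b c d w : ℝ) : T x y a b c d w 0 3 3 3 = 0 := rfl
@[simp] theorem T_1000 (x y a b c d w : ℝ) : T x y a b c d w 1 0 0 0 = 0 := rfl
@[simp] theorem T_1001 (x y a b c d w : ℝ) : T x y a b c d w 1 0 0 1 = -x := rfl
@[simp] theorem T_1002 (x y a b c d w : ℝ) : T x y a b c d w 1 0 0 2 = 0 := rfl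
@[simp] theorem T_1003 (x y a b c d w : ℝ) : T x y a b c d w 1 0 0 3 = 0 := rfl
@[simp] theorem T_1010 (x y a b c d w : ℝ) : T x y a b c d w 1 0 1 0 = x := rfl
@[simp] theorem T_1011 (x y a b c d w : ℝ) : T x y a b c d w 1 0 1 1 = 0 := rfl
@[simp] theorem T_1012 (x y a b c d w : ℝ) : T x y a b c d w 1 0 1 2 = 0 := rfl
@[simp] theorem T_1013 (x y a b c d w : ℝ) : T x y a b c d w 1 0 1 3 = 0 := rfl
@[simp] theorem T_1020 (x y a b c d w : ℝ) : T x y a b c d w 1 0 2 0 = 0 := rfl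
@[simp] theorem T_1021 (x y a b c d w : ℝ) : T x y a b c d w 1 0 2 1 = 0 := rfl
@[simp] theorem T_1022 (x y a b c d w : ℝ) : T x y a b c d w 1 0 2 2 = 0 := rfl
@[simp] theorem T_1023 (x y a b c d w : ℝ) : T x y a b c d w 1 0 2 3 = -(2 * w) := rfl
@[simp] theorem T_1030 (x y a b c d w : ℝ) : T x y a b c d w 1 0 3 0 = 0 := rfl
@[simp] theorem T_1031 (x y a b c d w : ℝ) : T x y a b c d w 1 0 3 1 = 0 := rfl
@[simp] theorem T_1032 (x y a b c d w : ℝ) : T x y a b c d w 1 0 3 2 = 2 * w := rfl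
@[simp] theorem T_1033 (x y a b c d w : ℝ) : T x y a b c d w 1 0 3 3 = 0 := rfl
@[simp] theorem T_1100 (x y a b c d w : ℝ) : T x y a b c d w 1 1 0 0 = 0 := rfl
@[simp] theorem T_1101 (x y a b c d w : ℝ) : T x y a b c d w 1 1 0 1 = 0 := rfl
@[simp] theorem T_1102 (x y a b c d w : ℝ) : T x y a b c d w 1 1 0 2 = 0 := rfl
@[simp] theorem T_1103 (x y a b c d w : ℝ) : T x y a b c d w 1 1 0 3 = 0 := rfl
@[simp] theorem T_1110 (x y a b c d w : ℝ) : T x y a b c d w 1 1 1 0 = 0 := rfl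
@[simp] theorem T_1111 (x y a b c d w : ℝ) : T x y a b c d w 1 1 1 1 = 0 := rfl
@[simp] theorem T_1112 (x y a b c d w : ℝ) : T x y a b c d w 1 1 1 2 = 0 := rfl
@[simp] theorem T_1113 (x y a b c d w : ℝ) : T x y a b c d w 1 1 1 3 = 0 := rfl
@[simp] theorem T_1120 (x y a b c d w : ℝ) : T x y a b c d w 1 1 2 0 = 0 := rfl
@[simp] theorem T_1121 (x y a b c d w : ℝ) : T x y a b c d w 1 1 2 1 = 0 := rfl
@[simp] theorem T_1122 (x y a b c d w : ℝ) : T x y a b c d w 1 1 2 2 = 0 := rfl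
@[simp] theorem T_1123 (x y a b c d w : ℝ) : T x y a b c d w 1 1 2 3 = 0 := rfl
@[simp] theorem T_1130 (x y a b c d w : ℝ) : T x y a b c d w 1 1 3 0 = 0 := rfl
@[simp] theorem T_1131 (x y a b c d w : ℝ) : T x y a b c d w 1 1 3 1 = 0 := rfl
@[simp] theorem T_1132 (x y a b c d w : ℝ) : T x y a b c d w 1 1 3 2 = 0 := rfl
@[simp] theorem T_1133 (x y a b c d w : ℝ) : T x y a b c d w 1 1 3 3 = 0 := rfl
@[simp] theorem T_1200 (x y a b c d w : ℝ) : T x y a b c d w 1 2 0 0 = 0 := rfl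
@[simp] theorem T_1201 (x y a b c d w : ℝ) : T x y a b c d w 1 2 0 1 = 0 := rfl
@[simp] theorem T_1202 (x y a b c d w : ℝ) : T x y a b c d w 1 2 0 2 = 0 := rfl
@[simp] theorem T_1203 (x y a b c d w : ℝ) : T x y a b c d w 1 2 0 3 = -w := rfl
@[simp] theorem T_1210 (x y a b c d w : ℝ) : T x y a b c d w 1 2 1 0 = 0 := rfl
@[simp] theorem T_1211 (x y a b c d w : ℝ) : T x y a b c d w 1 2 1 1 = 0 := rfl
@[simp] theorem T_1212 (x y a b c d w : ℝ) : T x y a b c d w 1 2 1 2 = d := rfl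
@[simp] theorem T_1213 (x y a b c d w : ℝ) : T x y a b c d w 1 2 1 3 = 0 := rfl
@[simp] theorem T_1220 (x y a b c d w : ℝ) : T x y a b c d w 1 2 2 0 = 0 := rfl
@[simp] theorem T_1221 (x y a b c d w : ℝ) : T x y a b c d w 1 2 2 1 = -d := rfl
@[simp] theorem T_1222 (x y a b c d w : ℝ) : T x y a b c d w 1 2 2 2 = 0 := rfl
@[simp] theorem T_1223 (x y a b c d w : ℝ) : T x y a b c d w 1 2 2 3 = 0 := rfl
@[simp] theorem T_1230 (x y a b c d w : ℝ) : T x y a b c d w 1 2 3 0 = w := rfl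
@[simp] theorem T_1231 (x y a b c d w : ℝ) : T x y a b c d w 1 2 3 1 = 0 := rfl
@[simp] theorem T_1232 (x y a b c d w : ℝ) : T x y a b c d w 1 2 3 2 = 0 := rfl
@[simp] theorem T_1233 (x y a b c d w : ℝ) : T x y a b c d w 1 2 3 3 = 0 := rfl
@[simp] theorem T_1300 (x y a b c d w : ℝ) : T x y a b c d w 1 3 0 0 = 0 := rfl
@[simp] theorem T_1301 (x y a b c d w : ℝ) : T x y a b c d w 1 3 0 1 = 0 := rfl
@[simp] theorem T_1302 (x y a b c d w : ℝ) : T x y a b c d w 1 3 0 2 = w := rfl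
@[simp] theorem T_1303 (x y a b c d w : ℝ) : T x y a b c d w 1 3 0 3 = 0 := rfl
@[simp] theorem T_1310 (x y a b c d w : ℝ) : T x y a b c d w 1 3 1 0 = 0 := rfl
@[simp] theorem T_1311 (x y a b c d w : ℝ) : T x y a b c d w 1 3 1 1 = 0 := rfl
@[simp] theorem T_1312 (x y a b c d w : ℝ) : T x y a b c d w 1 3 1 2 = 0 := rfl
@[simp] theorem T_1313 (x y a b c d w : ℝ) : T x y a b c d w 1 3 1 3 = b := rfl
@[simp] theorem T_1320 (x y a b c d w : ℝ) : T x y a b c d w 1 3 2 0 = -w := rfl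
@[simp] theorem T_1321 (x y a b c d w : ℝ) : T x y a b c d w 1 3 2 1 = 0 := rfl
@[simp] theorem T_1322 (x y a b c d w : ℝ) : T x y a b c d w 1 3 2 2 = 0 := rfl
@[simp] theorem T_1323 (x y a b c d w : ℝ) : T x y a b c d w 1 3 2 3 = 0 := rfl
@[simp] theorem T_1330 (x y a b c d w : ℝ) : T x y a b c d w 1 3 3 0 = 0 := rfl
@[simp] theorem T_1331 (x y a b c d w : ℝ) : T x y a b c d w 1 3 3 1 = -b := rfl
@[simp] theorem T_1332 (x y a b c d w : ℝ) : T x y a b c d w 1 3 3 2 = 0 := rfl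
@[simp] theorem T_1333 (x y a b c d w : ℝ) : T x y a b c d w 1 3 3 3 = 0 := rfl
@[simp] theorem T_2000 (x y a b c d w : ℝ) : T x y a b c d w 2 0 0 0 = 0 := rfl
@[simp] theorem T_2001 (x y a b c d w : ℝ) : T x y a b c d w 2 0 0 1 = 0 := rfl
@[simp] theorem T_2002 (x y a b c d w : ℝ) : T x y a b c d w 2 0 0 2 = -a := rfl
@[simp] theorem T_2003 (x y a b c d w : ℝ) : T x y a b c d w 2 0 0 3 = 0 := rfl
@[simp] theorem T_2010 (x y a b c d w : ℝ) : T x y a b c d w 2 0 1 0 = 0 := rfl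
@[simp] theorem T_2011 (x y a b c d w : ℝ) : T x y a b c d w 2 0 1 1 = 0 := rfl
@[simp] theorem T_2012 (x y a b c d w : ℝ) : T x y a b c d w 2 0 1 2 = 0 := rfl
@[simp] theorem T_2013 (x y a b c d w : ℝ) : T x y a b c d w 2 0 1 3 = -w := rfl
@[simp] theorem T_2020 (x y a b c d w : ℝ) : T x y a b c d w 2 0 2 0 = a := rfl
@[simp] theorem T_2021 (x y a b c d w : ℝ) : T x y a b c d w 2 0 2 1 = 0 := rfl
@[simp] theorem T_2022 (x y a b c d w : ℝ) : T x y a b c d w 2 0 2 2 = 0 := rfl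
@[simp] theorem T_2023 (x y a b c d w : ℝ) : T x y a b c d w 2 0 2 3 = 0 := rfl
@[simp] theorem T_2030 (x y a b c d w : ℝ) : T x y a b c d w 2 0 3 0 = 0 := rfl
@[simp] theorem T_2031 (x y a b c d w : ℝ) : T x y a b c d w 2 0 3 1 = w := rfl
@[simp] theorem T_2032 (x y a b c d w : ℝ) : T x y a b c d w 2 0 3 2 = 0 := rfl
@[simp] theorem T_2033 (x y a b c d w : ℝ) : T x y a b c d w 2 0 3 3 = 0 := rfl
@[simp] theorem T_2100 (x y a b c d w : ℝ) : T x y a b c d w 2 1 0 0 = 0 := rfl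
@[simp] theorem T_2101 (x y a b c d w : ℝ) : T x y a b c d w 2 1 0 1 = 0 := rfl
@[simp] theorem T_2102 (x y a b c d w : ℝ) : T x y a b c d w 2 1 0 2 = 0 := rfl
@[simp] theorem T_2103 (x y a b c d w : ℝ) : T x y a b c d w 2 1 0 3 = w := rfl
@[simp] theorem T_2110 (x y a b c d w : ℝ) : T x y a b c d w 2 1 1 0 = 0 := rfl
@[simp] theorem T_2111 (x y a b c d w : ℝ) : T x y a b c d w 2 1 1 1 = 0 := rfl
@[simp] theorem T_2112 (x y a b c d w : ℝ) : T x y a b c d w 2 1 1 2 = -d := rfl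
@[simp] theorem T_2113 (x y a b c d w : ℝ) : T x y a b c d w 2 1 1 3 = 0 := rfl
@[simp] theorem T_2120 (x y a b c d w : ℝ) : T x y a b c d w 2 1 2 0 = 0 := rfl
@[simp] theorem T_2121 (x y a b c d w : ℝ) : T x y a b c d w 2 1 2 1 = d := rfl
@[simp] theorem T_2122 (x y a b c d w : ℝ) : T x y a b c d w 2 1 2 2 = 0 := rfl
@[simp] theorem T_2123 (x y a b c d w : ℝ) : T x y a b c d w 2 1 2 3 = 0 := rfl
@[simp] theorem T_2130 (x y a b c d w : ℝ) : T x y a b c d w 2 1 3 0 = -w := rfl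
@[simp] theorem T_2131 (x y a b c d w : ℝ) : T x y a b c d w 2 1 3 1 = 0 := rfl
@[simp] theorem T_2132 (x y a b c d w : ℝ) : T x y a b c d w 2 1 3 2 = 0 := rfl
@[simp] theorem T_2133 (x y a b c d w : ℝ) : T x y a b c d w 2 1 3 3 = 0 := rfl
@[simp] theorem T_2200 (x y a b c d w : ℝ) : T x y a b c d w 2 2 0 0 = 0 := rfl
@[simp] theorem T_2201 (x y a b c d w : ℝ) : T x y a b c d w 2 2 0 1 = 0 := rfl
@[simp] theorem T_2202 (x y a b c d w : ℝ) : T x y a b c d w 2 2 0 2 = 0 := rfl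
@[simp] theorem T_2203 (x y a b c d w : ℝ) : T x y a b c d w 2 2 0 3 = 0 := rfl
@[simp] theorem T_2210 (x y a b c d w : ℝ) : T x y a b c d w 2 2 1 0 = 0 := rfl
@[simp] theorem T_2211 (x y a b c d w : ℝ) : T x y a b c d w 2 2 1 1 = 0 := rfl
@[simp] theorem T_2212 (x y a b c d w : ℝ) : T x y a b c d w 2 2 1 2 = 0 := rfl
@[simp] theorem T_2213 (x y a b c d w : ℝ) : T x y a b c d w 2 2 1 3 = 0 := rfl
@[simp] theorem T_2220 (x y a b c d w : ℝ) : T x y a b c d w 2 2 2 0 = 0 := rfl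
@[simp] theorem T_2221 (x y a b c d w : ℝ) : T x y a b c d w 2 2 2 1 = 0 := rfl
@[simp] theorem T_2222 (x y a b c d w : ℝ) : T x y a b c d w 2 2 2 2 = 0 := rfl
@[simp] theorem T_2223 (x y a b c d w : ℝ) : T x y a b c d w 2 2 2 3 = 0 := rfl
@[simp] theorem T_2230 (x y a b c d w : ℝ) : T x y a b c d w 2 2 3 0 = 0 := rfl
@[simp] theorem T_2231 (x y a b c d w : ℝ) : T x y a b c d w 2 2 3 1 = 0 := rfl
@[simp] theorem T_2232 (x y a b c d w : ℝ) : T x y a b c d w 2 2 3 2 = 0 := rfl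
@[simp] theorem T_2233 (x y a b c d w : ℝ) : T x y a b c d w 2 2 3 3 = 0 := rfl
@[simp] theorem T_2300 (x y a b c d w : ℝ) : T x y a b c d w 2 3 0 0 = 0 := rfl
@[simp] theorem T_2301 (x y a b c d w : ℝ) : T x y a b c d w 2 3 0 1 = 2 * w := rfl
@[simp] theorem T_2302 (x y a b c d w : ℝ) : T x y a b c d w 2 3 0 2 = 0 := rfl
@[simp] theorem T_2303 (x y a b c d w : ℝ) : T x y a b c d w 2 3 0 3 = 0 := rfl
@[simp] theorem T_2310 (x y a b c d w : ℝ) : T x y a b c d w 2 3 1 0 = -(2 * w) := rfl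
@[simp] theorem T_2311 (x y a b c d w : ℝ) : T x y a b c d w 2 3 1 1 = 0 := rfl
@[simp] theorem T_2312 (x y a b c d w : ℝ) : T x y a b c d w 2 3 1 2 = 0 := rfl
@[simp] theorem T_2313 (x y a b c d w : ℝ) : T x y a b c d w 2 3 1 3 = 0 := rfl
@[simp] theorem T_2320 (x y a b c d w : ℝ) : T x y a b c d w 2 3 2 0 = 0 := rfl
@[simp] theorem T_2321 (x y a b c d w : ℝ) : T x y a b c d w 2 3 2 1 = 0 := rfl
@[simp] theorem T_2322 (x y a b c d w : ℝ) : T x y a b c d w 2 3 2 2 = 0 := rfl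
@[simp] theorem T_2323 (x y a b c d w : ℝ) : T x y a b c d w 2 3 2 3 = y := rfl
@[simp] theorem T_2330 (x y a b c d w : ℝ) : T x y a b c d w 2 3 3 0 = 0 := rfl
@[simp] theorem T_2331 (x y a b c d w : ℝ) : T x y a b c d w 2 3 3 1 = 0 := rfl
@[simp] theorem T_2332 (x y a b c d w : ℝ) : T x y a b c d w 2 3 3 2 = -y := rfl
@[simp] theorem T_2333 (x y a b c d w : ℝ) : T x y a b c d w 2 3 3 3 = 0 := rfl
@[simp] theorem T_3000 (x y a b c d w : ℝ) : T x y a b c d w 3 0 0 0 = 0 := rfl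
@[simp] theorem T_3001 (x y a b c d w : ℝ) : T x y a b c d w 3 0 0 1 = 0 := rfl
@[simp] theorem T_3002 (x y a b c d w : ℝ) : T x y a b c d w 3 0 0 2 = 0 := rfl
@[simp] theorem T_3003 (x y a b c d w : ℝ) : T x y a b c d w 3 0 0 3 = -c := rfl
@[simp] theorem T_3010 (x y a b c d w : ℝ) : T x y a b c d w 3 0 1 0 = 0 := rfl
@[simp] theorem T_3011 (x y a b c d w : ℝ) : T x y a b c d w 3 0 1 1 = 0 := rfl
@[simp] theorem T_3012 (x y a b c d w : ℝ) : T x y a b c d w 3 0 1 2 = w := rfl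
@[simp] theorem T_3013 (x y a b c d w : ℝ) : T x y a b c d w 3 0 1 3 = 0 := rfl
@[simp] theorem T_3020 (x y a b c d w : ℝ) : T x y a b c d w 3 0 2 0 = 0 := rfl
@[simp] theorem T_3021 (x y a b c d w : ℝ) : T x y a b c d w 3 0 2 1 = -w := rfl
@[simp] theorem T_3022 (x y a b c d w : ℝ) : T x y a b c d w 3 0 2 2 = 0 := rfl
@[simp] theorem T_3023 (x y a b c d w : ℝ) : T x y a b c d w 3 0 2 3 = 0 := rfl
@[simp] theorem T_3030 (x y a b c d w : ℝ) : T x y a b c d w 3 0 3 0 = c := rfl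
@[simp] theorem T_3031 (x y a b c d w : ℝ) : T x y a b c d w 3 0 3 1 = 0 := rfl
@[simp] theorem T_3032 (x y a b c d w : ℝ) : T x y a b c d w 3 0 3 2 = 0 := rfl
@[simp] theorem T_3033 (x y a b c d w : ℝ) : T x y a b c d w 3 0 3 3 = 0 := rfl
@[simp] theorem T_3100 (x y a b c d w : ℝ) : T x y a b c d w 3 1 0 0 = 0 := rfl
@[simp] theorem T_3101 (x y a b c d w : ℝ) : T x y a b c d w 3 1 0 1 = 0 := rfl
@[simp] theorem T_3102 (x y a b c d w : ℝ) : T x y a b c d w 3 1 0 2 = -w := rfl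
@[simp] theorem T_3103 (x y a b c d w : ℝ) : T x y a b c d w 3 1 0 3 = 0 := rfl
@[simp] theorem T_3110 (x y a b c d w : ℝ) : T x y a b c d w 3 1 1 0 = 0 := rfl
@[simp] theorem T_3111 (x y a b c d w : ℝ) : T x y a b c d w 3 1 1 1 = 0 := rfl
@[simp] theorem T_3112 (x y a b c d w : ℝ) : T x y a b c d w 3 1 1 2 = 0 := rfl
@[simp] theorem T_3113 (x y a b c d w : ℝ) : T x y a b c d w 3 1 1 3 = -b := rfl
@[simp] theorem T_3120 (x y a b c d w : ℝ) : T x y a b c d w 3 1 2 0 = w := rfl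
@[simp] theorem T_3121 (x y a b c d w : ℝ) : T x y a b c d w 3 1 2 1 = 0 := rfl
@[simp] theorem T_3122 (x y a b c d w : ℝ) : T x y a b c d w 3 1 2 2 = 0 := rfl
@[simp] theorem T_3123 (x y a b c d w : ℝ) : T x y a b c d w 3 1 2 3 = 0 := rfl
@[simp] theorem T_3130 (x y a b c d w : ℝ) : T x y a b c d w 3 1 3 0 = 0 := rfl
@[simp] theorem T_3131 (x y a b c d w : ℝ) : T x y a b c d w 3 1 3 1 = b := rfl
@[simp] theorem T_3132 (x y a b c d w : ℝ) : T x y a b c d w 3 1 3 2 = 0 := rfl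
@[simp] theorem T_3133 (x y a b c d w : ℝ) : T x y a b c d w 3 1 3 3 = 0 := rfl
@[simp] theorem T_3200 (x y a b c d w : ℝ) : T x y a b c d w 3 2 0 0 = 0 := rfl
@[simp] theorem T_3201 (x y a b c d w : ℝ) : T x y a b c d w 3 2 0 1 = -(2 * w) := rfl
@[simp] theorem T_3202 (x y a b c d w : ℝ) : T x y a b c d w 3 2 0 2 = 0 := rfl
@[simp] theorem T_3203 (x y a b c d w : ℝ) : T x y a b c d w 3 2 0 3 = 0 := rfl
@[simp] theorem T_3210 (x y a b c d w : ℝ) : T x y a b c d w 3 2 1 0 = 2 * w := rfl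
@[simp] theorem T_3211 (x y a b c d w : ℝ) : T x y a b c d w 3 2 1 1 = 0 := rfl
@[simp] theorem T_3212 (x y a b c d w : ℝ) : T x y a b c d w 3 2 1 2 = 0 := rfl
@[simp] theorem T_3213 (x y a b c d w : ℝ) : T x y a b c d w 3 2 1 3 = 0 := rfl
@[simp] theorem T_3220 (x y a b c d w : ℝ) : T x y a b c d w 3 2 2 0 = 0 := rfl
@[simp] theorem T_3221 (x y a b c d w : ℝ) : T x y a b c d w 3 2 2 1 = 0 := rfl
@[simp] theorem T_3222 (x y a b c d w : ℝ) : T x y a b c d w 3 2 2 2 = 0 := rfl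
@[simp] theorem T_3223 (x y a b c d w : ℝ) : T x y a b c d w 3 2 2 3 = -y := rfl
@[simp] theorem T_3230 (x y a b c d w : ℝ) : T x y a b c d w 3 2 3 0 = 0 := rfl
@[simp] theorem T_3231 (x y a b c d w : ℝ) : T x y a b c d w 3 2 3 1 = 0 := rfl
@[simp] theorem T_3232 (x y a b c d w : ℝ) : T x y a b c d w 3 2 3 2 = y := rfl
@[simp] theorem T_3233 (x y a b c d w : ℝ) : T x y a b c d w 3 2 3 3 = 0 := rfl
@[simp] theorem T_3300 (x y a b c d w : ℝ) : T x y a b c d w 3 3 0 0 = 0 := rfl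
@[simp] theorem T_3301 (x y a b c d w : ℝ) : T x y a b c d w 3 3 0 1 = 0 := rfl
@[simp] theorem T_3302 (x y a b c d w : ℝ) : T x y a b c d w 3 3 0 2 = 0 := rfl
@[simp] theorem T_3303 (x y a b c d w : ℝ) : T x y a b c d w 3 3 0 3 = 0 := rfl
@[simp] theorem T_3310 (x y a b c d w : ℝ) : T x y a b c d w 3 3 1 0 = 0 := rfl
@[simp] theorem T_3311 (x y a b c d w : ℝ) : T x y a b c d w 3 3 1 1 = 0 := rfl
@[simp] theorem T_3312 (x y a b c d w : ℝ) : T x y a b c d w 3 3 1 2 = 0 := rfl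
@[simp] theorem T_3313 (x y a b c d w : ℝ) : T x y a b c d w 3 3 1 3 = 0 := rfl
@[simp] theorem T_3320 (x y a b c d w : ℝ) : T x y a b c d w 3 3 2 0 = 0 := rfl
@[simp] theorem T_3321 (x y a b c d w : ℝ) : T x y a b c d w 3 3 2 1 = 0 := rfl
@[simp] theorem T_3322 (x y a b c d w : ℝ) : T x y a b c d w 3 3 2 2 = 0 := rfl
@[simp] theorem T_3323 (x y a b c d w : ℝ) : T x y a b c d w 3 3 2 3 = 0 := rfl
@[simp] theorem T_3330 (x y a b c d w : ℝ) : T x y a b c d w 3 3 3 0 = 0 := rfl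
@[simp] theorem T_3331 (x y a b c d w : ℝ) : T x y a b c d w 3 3 3 1 = 0 := rfl
@[simp] theorem T_3332 (x y a b c d w : ℝ) : T x y a b c d w 3 3 3 2 = 0 := rfl
@[simp] theorem T_3333 (x y a b c d w : ℝ) : T x y a b c d w 3 3 3 3 = 0 := rfl

theorem forall_four {P : Fin 4 → Prop} : (∀ i, P i) ↔ P 0 ∧ P 1 ∧ P 2 ∧ P 3 :=
  ⟨fun h => ⟨h 0, h 1, h 2, h 3⟩, fun h i => by
    fin_cases i
    · exact h.1
    · exact h.2.1
    · exact h.2.2.1
    · exact h.2.2.2⟩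

theorem isCurv_T (x y a b c d w : ℝ) : IsCurv (T x y a b c d w) := by
  refine ⟨?_, ?_, ?_⟩ <;> simp [forall_four] <;> ring_nf <;> simp

theorem T_lin (x y a b c d w : ℝ) :
    T x y a b c d w = x • T 1 0 0 0 0 0 0 + y • T 0 1 0 0 0 0 0 + a • T 0 0 1 0 0 0 0 +
      b • T 0 0 0 1 0 0 0 + c • T 0 0 0 0 1 0 0 + d • T 0 0 0 0 0 1 0 + w • T 0 0 0 0 0 0 1 := by
  have : ∀ i j k l, T x y a b c d w i j k l = (x • T 1 0 0 0 0 0 0 + y • T 0 1 0 0 0 0 0 +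
      a • T 0 0 1 0 0 0 0 + b • T 0 0 0 1 0 0 0 + c • T 0 0 0 0 1 0 0 + d • T 0 0 0 0 0 1 0 +
      w • T 0 0 0 0 0 0 1) i j k l := by
    simp [forall_four, mul_comm]
  funext i j k l; exact this i j k l

theorem Q_T (x y z w : ℝ) :
    sq (T x y z z z z w) + sharp (T x y z z z z w) =
      T (x ^ 2 + 2 * z ^ 2 + 6 * w ^ 2) (y ^ 2 + 2 * z ^ 2 + 6 * w ^ 2)
        (z ^ 2 + x * z + y * z - 3 * w ^ 2) (z ^ 2 + x * z + y * z - 3 * w ^ 2)
        (z ^ 2 + x * z + y * z - 3 * w ^ 2) (z ^ 2 + x * z + y * z - 3 * w ^ 2)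
        (w * (x + y - 2 * z)) := by
  have : ∀ i j k l, sq (T x y z z z z w) i j k l + sharp (T x y z z z z w) i j k l =
      T (x ^ 2 + 2 * z ^ 2 + 6 * w ^ 2) (y ^ 2 + 2 * z ^ 2 + 6 * w ^ 2)
        (z ^ 2 + x * z + y * z - 3 * w ^ 2) (z ^ 2 + x * z + y * z - 3 * w ^ 2)
        (z ^ 2 + x * z + y * z - 3 * w ^ 2) (z ^ 2 + x * z + y * z - 3 * w ^ 2)
        (w * (x + y - 2 * z)) i j k l := by
    simp [forall_four, sq, sharp, Fin.sum_univ_four]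
    refine ⟨?_, ?_, ?_, ?_⟩ <;> refine ⟨?_, ?_, ?_⟩ <;> (try constructorm* _ ∧ _) <;> ring
  funext i j k l; exact this i j k l

end Pool.Agent.H397Z.Curv
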