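import Pool.Agent.H397Z.Four

namespace Pool.Agent.H397Z.Curv

open Finset Matrix Set Filter Topology

variable {n m : ℕ}

/-- Signed permutation matrices. -/
def sp (ε : Fin n → ℝ) (σ : Equiv.Perm (Fin n)) : Matrix (Fin n) (Fin n) ℝ :=
  Matrix.of fun i a => if a = σ i then ε i else 0

theorem act_sp (ε : Fin n → ℝ) (σ : Equiv.Perm (Fin n)) (R : Tensor n) (i j k l : Fin n) :
    act (sp ε σ) R i j k l = ε i * ε j * ε k * ε l * R (σ i) (σ j) (σ k) (σ l) := by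
  simp [act, sp]

theorem sp_mem (ε : Fin n → ℝ) (hε : ∀ i, ε i * ε i = 1) (σ : Equiv.Perm (Fin n)) :
    sp ε σ ∈ Matrix.orthogonalGroup (Fin n) ℝ := by
  rw [Matrix.mem_orthogonalGroup_iff]
  ext i j
  by_cases h : i = j
  · subst h; simp [Matrix.mul_apply, sp, hε]
  · have : σ j ≠ σ i := fun e => h (σ.injective e).symm
    simp [Matrix.mul_apply, sp, h, this]

/-- The family as curvature operators. -/
def TC (x y a b c d w : ℝ) : CurvOp 4 := ⟨T x y a b c d w, isCurv_T x y a b c d w⟩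

theorem TC_lin (x y a b c d w : ℝ) :
    TC x y a b c d w = x • TC 1 0 0 0 0 0 0 + y • TC 0 1 0 0 0 0 0 + a • TC 0 0 1 0 0 0 0 +
      b • TC 0 0 0 1 0 0 0 + c • TC 0 0 0 0 1 0 0 + d • TC 0 0 0 0 0 1 0 +
      w • TC 0 0 0 0 0 0 1 := Subtype.ext (T_lin x y a b c d w)

theorem TC_add (x y a b c d w x' y' a' b' c' d' w' : ℝ) :
    TC x y a b c d w + TC x' y' a' b' c' d' w' =
      TC (x + x') (y + y') (a + a') (b + b') (c + c') (d + d') (w + w') := by
  rw [TC_lin x, TC_lin x', TC_lin (x + x')]; module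

theorem TC_smul (t x y a b c d w : ℝ) :
    t • TC x y a b c d w = TC (t * x) (t * y) (t * a) (t * b) (t * c) (t * d) (t * w) := by
  rw [TC_lin x, TC_lin (t * x)]; module

theorem Q_TC (x y z w : ℝ) :
    Q (TC x y z z z z w) =
      TC (x ^ 2 + 2 * z ^ 2 + 6 * w ^ 2) (y ^ 2 + 2 * z ^ 2 + 6 * w ^ 2)
        (z ^ 2 + x * z + y * z - 3 * w ^ 2) (z ^ 2 + x * z + y * z - 3 * w ^ 2)
        (z ^ 2 + x * z + y * z - 3 * w ^ 2) (z ^ 2 + x * z + y * z - 3 * w ^ 2)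
        (w * (x + y - 2 * z)) := Subtype.ext (Q_T x y z w)

theorem hasDerivAt_TC {x y z w : ℝ → ℝ} {x' y' z' w' t : ℝ} (hx : HasDerivAt x x' t)
    (hy : HasDerivAt y y' t) (hz : HasDerivAt z z' t) (hw : HasDerivAt w w' t) :
    HasDerivAt (fun s => TC (x s) (y s) (z s) (z s) (z s) (z s) (w s))
      (TC x' y' z' z' z' z' w') t := by
  have e : (fun s => TC (x s) (y s) (z s) (z s) (z s) (z s) (w s)) = fun s =>
      x s • TC 1 0 0 0 0 0 0 + y s • TC 0 1 0 0 0 0 0 + z s • TC 0 0 1 0 0 0 0 +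
      z s • TC 0 0 0 1 0 0 0 + z s • TC 0 0 0 0 1 0 0 + z s • TC 0 0 0 0 0 1 0 +
      w s • TC 0 0 0 0 0 0 1 := by
    funext s; exact TC_lin _ _ _ _ _ _ _
  rw [e, TC_lin x']
  exact ((((((hx.smul_const _).add (hy.smul_const _)).add (hz.smul_const _)).add
    (hz.smul_const _)).add (hz.smul_const _)).add (hz.smul_const _)).add
    (hw.smul_const (TC 0 0 0 0 0 0 1))

theorem continuous_TC {X : Type*} [TopologicalSpace X] {x y a b c d w : X → ℝ}
    (hx : Continuous x) (hy : Continuous y) (ha : Continuous a) (hb : Continuous b)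
    (hc : Continuous c) (hd : Continuous d) (hw : Continuous w) :
    Continuous fun s => TC (x s) (y s) (a s) (b s) (c s) (d s) (w s) := by
  have e : (fun s => TC (x s) (y s) (a s) (b s) (c s) (d s) (w s)) = fun s =>
      x s • TC 1 0 0 0 0 0 0 + y s • TC 0 1 0 0 0 0 0 + a s • TC 0 0 1 0 0 0 0 +
      b s • TC 0 0 0 1 0 0 0 + c s • TC 0 0 0 0 1 0 0 + d s • TC 0 0 0 0 0 1 0 +
      w s • TC 0 0 0 0 0 0 1 := by
    funext s; exact TC_lin _ _ _ _ _ _ _
  rw [e]; fun_prop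

theorem flip_TC (x y a b c d w : ℝ) :
    actOp (sp ![-1, 1, 1, 1] 1) (TC x y a b c d w) = TC x y a b c d (-w) := by
  apply Subtype.ext
  have : ∀ i j k l, act (sp ![-1, 1, 1, 1] 1) (T x y a b c d w) i j k l =
      T x y a b c d (-w) i j k l := by
    simp [act_sp, forall_four]
  funext i j k l; exact this i j k l

theorem swap12_TC (x y a b c d : ℝ) :
    actOp (sp (fun _ => 1) (Equiv.swap 1 2)) (TC x y a b c d 0) = TC a b x y c d 0 := by
  apply Subtype.ext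
  have : ∀ i j k l, act (sp (fun _ => 1) (Equiv.swap 1 2)) (T x y a b c d 0) i j k l =
      T a b x y c d 0 i j k l := by
    simp [act_sp, forall_four, Equiv.swap_apply_def]
  funext i j k l; exact this i j k l

theorem swap13_TC (x y a b c d : ℝ) :
    actOp (sp (fun _ => 1) (Equiv.swap 1 3)) (TC x y a b c d 0) = TC c d a b x y 0 := by
  apply Subtype.ext
  have : ∀ i j k l, act (sp (fun _ => 1) (Equiv.swap 1 3)) (T x y a b c d 0) i j k l =
      T c d a b x y 0 i j k l := by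
    simp [act_sp, forall_four, Equiv.swap_apply_def]
  funext i j k l; exact this i j k l

theorem swap03_TC (x y a b c d : ℝ) :
    actOp (sp (fun _ => 1) (Equiv.swap 0 3)) (TC x y a b c d 0) = TC b a y x c d 0 := by
  apply Subtype.ext
  have : ∀ i j k l, act (sp (fun _ => 1) (Equiv.swap 0 3)) (T x y a b c d 0) i j k l =
      T b a y x c d 0 i j k l := by
    simp [act_sp, forall_four, Equiv.swap_apply_def]
  funext i j k l; exact this i j k l

theorem sec_T1 : SecNonneg (TC 3 3 0 0 0 0 1) := by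
  intro x y _ _ _
  have : ev (TC 3 3 0 0 0 0 1) x y x y =
      3 * (x 0 * y 1 - x 1 * y 0 + x 2 * y 3 - x 3 * y 2) ^ 2 := by
    simp [ev, TC, Fin.sum_univ_four]; ring
  rw [this]; positivity

theorem sec_T2 : SecNonneg (TC 1 0 0 0 0 0 0) := by
  intro x y _ _ _
  have : ev (TC 1 0 0 0 0 0 0) x y x y = (x 0 * y 1 - x 1 * y 0) ^ 2 := by
    simp [ev, TC, Fin.sum_univ_four]; ring
  rw [this]; positivity

/-- The properties of a cone that the argument uses. -/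
structure Good (D : Set (CurvOp n)) : Prop where
  closed : IsClosed D
  add : ∀ R ∈ D, ∀ S ∈ D, R + S ∈ D
  smul : ∀ R ∈ D, ∀ c : ℝ, 0 ≤ c → c • R ∈ D
  orth : OrthInvariant D
  inv : RFInvariant D
  sec : ∀ R, SecNonneg R → R ∈ D

theorem RFInvariant.of_hasDerivAt {D : Set (CurvOp n)} (h : RFInvariant D) {γ : ℝ → CurvOp n}
    {T : ℝ} (hT : 0 ≤ T) (hγ : ∀ t ∈ Icc (0 : ℝ) T, HasDerivAt γ (Q (γ t)) t) (h0 : γ 0 ∈ D) :
    γ T ∈ D :=
  h γ T hT (fun t ht => (hγ t ht).hasDerivWithinAt) h0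

theorem Good.weyl {D : Set (CurvOp 4)} (h : Good D) : TC 2 2 (-1) (-1) (-1) (-1) 1 ∈ D := by
  have key : ∀ T : ℝ, 0 ≤ T → T < 1 / 6 →
      TC ((1 - 6 * T) / (1 - 3 * T) + 2) ((1 - 6 * T) / (1 - 3 * T) + 2)
        ((1 - 6 * T) / (1 - 3 * T) - 1) ((1 - 6 * T) / (1 - 3 * T) - 1)
        ((1 - 6 * T) / (1 - 3 * T) - 1) ((1 - 6 * T) / (1 - 3 * T) - 1) 1 ∈ D := by
    intro T hT hT'
    set a : ℝ → ℝ := fun t => (1 - 3 * t)⁻¹ with ha
    set b : ℝ → ℝ := fun t => (1 - 6 * t)⁻¹ with hb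
    have hda : ∀ t ∈ Icc (0 : ℝ) T, HasDerivAt a (3 * a t ^ 2) t := by
      intro t ht
      have h1 : (1 - 3 * t) ≠ 0 := by linarith [ht.2]
      have h2 : HasDerivAt (fun t : ℝ => 1 - 3 * t) (-3) t := by
        simpa using ((hasDerivAt_id t).const_mul 3).const_sub 1
      have h3 : HasDerivAt a (-(-3) / (1 - 3 * t) ^ 2) t := h2.inv h1
      convert h3 using 1
      simp only [ha]; field_simp
    have hdb : ∀ t ∈ Icc (0 : ℝ) T, HasDerivAt b (6 * b t ^ 2) t := by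
      intro t ht
      have h1 : (1 - 6 * t) ≠ 0 := by linarith [ht.2]
      have h2 : HasDerivAt (fun t : ℝ => 1 - 6 * t) (-6) t := by
        simpa using ((hasDerivAt_id t).const_mul 6).const_sub 1
      have h3 : HasDerivAt b (-(-6) / (1 - 6 * t) ^ 2) t := h2.inv h1
      convert h3 using 1
      simp only [hb]; field_simp
    have hmem := h.inv.of_hasDerivAt (γ := fun s => TC (a s + 2 * b s) (a s + 2 * b s)
      (a s - b s) (a s - b s) (a s - b s) (a s - b s) (b s)) hT (fun t ht => by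
        have e1 : HasDerivAt (fun s => a s + 2 * b s) (3 * a t ^ 2 + 2 * (6 * b t ^ 2)) t :=
          (hda t ht).add ((hdb t ht).const_mul 2)
        have e2 : HasDerivAt (fun s => a s - b s) (3 * a t ^ 2 - 6 * b t ^ 2) t :=
          (hda t ht).sub (hdb t ht)
        have := hasDerivAt_TC e1 e1 e2 (hdb t ht)
        rw [Q_TC]
        convert this using 2 <;> ring) (by
        have : TC (a 0 + 2 * b 0) (a 0 + 2 * b 0) (a 0 - b 0) (a 0 - b 0) (a 0 - b 0)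
            (a 0 - b 0) (b 0) = TC 3 3 0 0 0 0 1 := by
          simp only [ha, hb]; norm_num
        rw [this]; exact h.sec _ sec_T1)
    have h6 : 0 < 1 - 6 * T := by linarith
    have h3 : 0 < 1 - 3 * T := by linarith
    have := h.smul _ hmem (1 - 6 * T) h6.le
    rw [TC_smul] at this
    convert this using 2 <;> simp only [ha, hb] <;> field_simp
  have hc : ContinuousAt (fun T : ℝ => (1 - 6 * T) / (1 - 3 * T)) (1 / 6) := by
    apply ContinuousAt.div (by fun_prop) (by fun_prop); norm_num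
  have hlim : Tendsto (fun T : ℝ => (1 - 6 * T) / (1 - 3 * T)) (𝓝[<] (1 / 6)) (𝓝 0) := by
    have := hc.tendsto.mono_left (nhdsWithin_le_nhds (s := Iio (1 / 6 : ℝ)))
    norm_num at this ⊢
    exact this
  have hcont : Continuous fun s : ℝ => TC (s + 2) (s + 2) (s - 1) (s - 1) (s - 1) (s - 1) 1 :=
    continuous_TC (by fun_prop) (by fun_prop) (by fun_prop) (by fun_prop) (by fun_prop)
      (by fun_prop) (by fun_prop)
  have hl2 := (hcont.tendsto 0).comp hlim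
  have : TC (0 + 2) (0 + 2) (0 - 1) (0 - 1) (0 - 1) (0 - 1) 1 ∈ D := by
    refine h.closed.mem_of_tendsto hl2 ?_
    filter_upwards [Ioo_mem_nhdsLT (show (0 : ℝ) < 1 / 6 by norm_num)] with T hT
    exact key T hT.1.le hT.2
  norm_num at this ⊢
  exact this

theorem Good.flip {D : Set (CurvOp 4)} (h : Good D) {x y a b c d w : ℝ}
    (hm : TC x y a b c d w ∈ D) : TC x y a b c d (-w) ∈ D := by
  rw [← flip_TC]
  exact h.orth _ (sp_mem _ (by simp [forall_four]) _) _ hm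

theorem Good.s12 {D : Set (CurvOp 4)} (h : Good D) {x y a b c d : ℝ}
    (hm : TC x y a b c d 0 ∈ D) : TC a b x y c d 0 ∈ D := by
  rw [← swap12_TC]
  exact h.orth _ (sp_mem _ (by simp) _) _ hm

theorem Good.s13 {D : Set (CurvOp 4)} (h : Good D) {x y a b c d : ℝ}
    (hm : TC x y a b c d 0 ∈ D) : TC c d a b x y 0 ∈ D := by
  rw [← swap13_TC]
  exact h.orth _ (sp_mem _ (by simp) _) _ hm

theorem Good.s03 {D : Set (CurvOp 4)} (h : Good D) {x y a b c d : ℝ}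
    (hm : TC x y a b c d 0 ∈ D) : TC b a y x c d 0 ∈ D := by
  rw [← swap03_TC]
  exact h.orth _ (sp_mem _ (by simp) _) _ hm

theorem Good.Z0 {D : Set (CurvOp 4)} (h : Good D) : TC 2 2 (-1) (-1) (-1) (-1) 0 ∈ D := by
  have := h.smul _ (h.add _ h.weyl _ (h.flip h.weyl)) (1 / 2) (by norm_num)
  rw [TC_add, TC_smul] at this
  norm_num at this ⊢
  exact this

theorem Good.Z0neg {D : Set (CurvOp 4)} (h : Good D) : TC (-2) (-2) 1 1 1 1 0 ∈ D := by
  have := h.add _ (h.s12 h.Z0) _ (h.s13 h.Z0)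
  rw [TC_add] at this
  norm_num at this ⊢
  exact this

theorem Good.shift {D : Set (CurvOp 4)} (h : Good D) {x y z : ℝ} (hm : TC x y z z z z 0 ∈ D)
    (t : ℝ) : TC (x + 2 * t) (y + 2 * t) (z - t) (z - t) (z - t) (z - t) 0 ∈ D := by
  rcases le_total 0 t with ht | ht
  · have := h.add _ hm _ (h.smul _ h.Z0 t ht)
    rw [TC_smul, TC_add] at this
    convert this using 2 <;> ring
  · have := h.add _ hm _ (h.smul _ h.Z0neg (-t) (by linarith))
    rw [TC_smul, TC_add] at this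
    convert this using 2 <;> ring

/-- One step: from ratio `s > 0` to a strictly larger ratio. -/
theorem Good.step {D : Set (CurvOp 4)} (h : Good D) {s : ℝ} (hs : 0 < s)
    (hm : TC (1 + s) (1 - s) 0 0 0 0 0 ∈ D) :
    ∃ s' > s, TC (1 + s') (1 - s') 0 0 0 0 0 ∈ D := by
  set M : ℝ := s ^ 2 + 1 with hM
  have hm' := h.shift hm M
  let f : ℝ × ℝ × ℝ → ℝ × ℝ × ℝ := fun p =>
    (p.1 ^ 2 + 2 * p.2.2 ^ 2, p.2.1 ^ 2 + 2 * p.2.2 ^ 2,
      p.2.2 ^ 2 + p.1 * p.2.2 + p.2.1 * p.2.2)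
  have hf : ContDiffAt ℝ 1 f (1 + s + 2 * M, 1 - s + 2 * M, 0 - M) := by
    apply ContDiff.contDiffAt; fun_prop
  obtain ⟨α, hα0, ε, hε, hα⟩ :=
    hf.exists_forall_mem_closedBall_exists_eq_forall_mem_Ioo_hasDerivAt₀ 0
  set x : ℝ → ℝ := fun t => (α t).1 with hx
  set y : ℝ → ℝ := fun t => (α t).2.1 with hy
  set z : ℝ → ℝ := fun t => (α t).2.2 with hz
  have dx : ∀ t ∈ Ioo (0 - ε) (0 + ε), HasDerivAt x (x t ^ 2 + 2 * z t ^ 2) t :=
    fun t ht => (hα t ht).fst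
  have dy : ∀ t ∈ Ioo (0 - ε) (0 + ε), HasDerivAt y (y t ^ 2 + 2 * z t ^ 2) t :=
    fun t ht => (hα t ht).snd.fst
  have dz : ∀ t ∈ Ioo (0 - ε) (0 + ε), HasDerivAt z (z t ^ 2 + x t * z t + y t * z t) t :=
    fun t ht => (hα t ht).snd.snd
  have x0 : x 0 = 1 + s + 2 * M := by simp only [hx, hα0]
  have y0 : y 0 = 1 - s + 2 * M := by simp only [hy, hα0]
  have z0 : z 0 = 0 - M := by simp only [hz, hα0]
  have h0 : (0 : ℝ) ∈ Ioo (0 - ε) (0 + ε) := ⟨by linarith, by linarith⟩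
  have hin : ∀ T, 0 ≤ T → T < ε → TC (x T) (y T) (z T) (z T) (z T) (z T) 0 ∈ D := by
    intro T hT hTε
    refine h.inv.of_hasDerivAt (γ := fun t => TC (x t) (y t) (z t) (z t) (z t) (z t) 0) hT
      (fun t ht => ?_) (by rw [x0, y0, z0]; exact hm')
    have ht' : t ∈ Ioo (0 - ε) (0 + ε) := ⟨by linarith [ht.1], by linarith [ht.2]⟩
    have := hasDerivAt_TC (dx t ht') (dy t ht') (dz t ht') (hasDerivAt_const t (0 : ℝ))
    rw [Q_TC]
    convert this using 2 <;> ring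
  -- the function `u - s σ`
  have dφ : HasDerivAt (fun t => (x t - y t) - s * (x t + y t + 4 * z t))
      ((x 0 ^ 2 + 2 * z 0 ^ 2 - (y 0 ^ 2 + 2 * z 0 ^ 2)) - s * ((x 0 ^ 2 + 2 * z 0 ^ 2) +
        (y 0 ^ 2 + 2 * z 0 ^ 2) + 4 * (z 0 ^ 2 + x 0 * z 0 + y 0 * z 0))) 0 :=
    ((dx 0 h0).sub (dy 0 h0)).sub
      ((((dx 0 h0).add (dy 0 h0)).add ((dz 0 h0).const_mul 4)).const_mul s)
  have hpos : 0 < (x 0 ^ 2 + 2 * z 0 ^ 2 - (y 0 ^ 2 + 2 * z 0 ^ 2)) - s * ((x 0 ^ 2 + 2 * z 0 ^ 2) +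
        (y 0 ^ 2 + 2 * z 0 ^ 2) + 4 * (z 0 ^ 2 + x 0 * z 0 + y 0 * z 0)) := by
    rw [x0, y0, z0, hM]
    have : ((1 + s + 2 * (s ^ 2 + 1)) ^ 2 + 2 * (0 - (s ^ 2 + 1)) ^ 2 -
        ((1 - s + 2 * (s ^ 2 + 1)) ^ 2 + 2 * (0 - (s ^ 2 + 1)) ^ 2)) -
        s * (((1 + s + 2 * (s ^ 2 + 1)) ^ 2 + 2 * (0 - (s ^ 2 + 1)) ^ 2) +
        ((1 - s + 2 * (s ^ 2 + 1)) ^ 2 + 2 * (0 - (s ^ 2 + 1)) ^ 2) +
        4 * ((0 - (s ^ 2 + 1)) ^ 2 + (1 + s + 2 * (s ^ 2 + 1)) * (0 - (s ^ 2 + 1)) +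
          (1 - s + 2 * (s ^ 2 + 1)) * (0 - (s ^ 2 + 1)))) = s * (10 + 6 * s ^ 2) := by ring
    rw [this]; positivity
  have hφ0 : (x 0 - y 0) - s * (x 0 + y 0 + 4 * z 0) = 0 := by rw [x0, y0, z0]; ring
  have ev1 : ∀ᶠ t in 𝓝[>] (0 : ℝ), 0 < (x t - y t) - s * (x t + y t + 4 * z t) := by
    have := (hasDerivAt_iff_tendsto_slope_zero.1 dφ).eventually (lt_mem_nhds hpos)
    have h2 : 𝓝[>] (0 : ℝ) ≤ 𝓝[≠] 0 := nhdsWithin_mono _ fun t ht => ne_of_gt ht
    filter_upwards [h2 this, self_mem_nhdsWithin] with t ht ht0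
    simp only [zero_add, hφ0, sub_zero, smul_eq_mul] at ht
    have ht0' : (0 : ℝ) < t := ht0
    exact (mul_pos_iff_of_pos_left (inv_pos.2 ht0')).1 ht
  have ev2 : ∀ᶠ t in 𝓝[>] (0 : ℝ), 0 < x t + y t + 4 * z t := by
    have hc : ContinuousAt (fun t => x t + y t + 4 * z t) 0 :=
      (((dx 0 h0).add (dy 0 h0)).add ((dz 0 h0).const_mul 4)).continuousAt
    have : (0 : ℝ) < x 0 + y 0 + 4 * z 0 := by rw [x0, y0, z0]; linarith
    exact nhdsWithin_le_nhds (hc.eventually (lt_mem_nhds this))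
  obtain ⟨t, ht1, ht2, ht3⟩ := (ev1.and (ev2.and (Ioo_mem_nhdsGT hε))).exists
  have hT := h.smul _ (h.shift (hin t ht3.1.le ht3.2) (z t)) (2 / (x t + y t + 4 * z t))
    (by positivity)
  rw [TC_smul] at hT
  refine ⟨(x t - y t) / (x t + y t + 4 * z t), ?_, ?_⟩
  · rw [gt_iff_lt, lt_div_iff₀ ht2]; linarith
  · convert hT using 2 <;> field_simp <;> ring

theorem Good.V {D : Set (CurvOp 4)} (h : Good D) : TC 1 (-1) 0 0 0 0 0 ∈ D := by
  set S : Set ℝ := {s | TC (1 + s) (1 - s) 0 0 0 0 0 ∈ D} with hS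
  have hcont : Continuous fun s : ℝ => TC (1 + s) (1 - s) 0 0 0 0 0 :=
    continuous_TC (by fun_prop) (by fun_prop) (by fun_prop) (by fun_prop) (by fun_prop)
      (by fun_prop) (by fun_prop)
  have hSc : IsClosed S := h.closed.preimage hcont
  have h1 : (1 : ℝ) ∈ S := by
    have := h.smul _ (h.sec _ sec_T2) 2 (by norm_num)
    rw [TC_smul] at this
    simp only [hS, Set.mem_ofPred_eq]
    norm_num at this ⊢
    exact this
  have hunb : ¬ BddAbove S := by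
    intro hb
    have hmem := hSc.csSup_mem ⟨1, h1⟩ hb
    have hle : 1 ≤ sSup S := le_csSup hb h1
    obtain ⟨s', hs', hm⟩ := h.step (by linarith) hmem
    have := le_csSup hb (show s' ∈ S from hm)
    linarith
  have hcont2 : Continuous fun s : ℝ => TC (s + 1) (s - 1) 0 0 0 0 0 :=
    continuous_TC (by fun_prop) (by fun_prop) (by fun_prop) (by fun_prop) (by fun_prop)
      (by fun_prop) (by fun_prop)
  have hcl : IsClosed {s : ℝ | TC (s + 1) (s - 1) 0 0 0 0 0 ∈ D} := h.closed.preimage hcont2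
  have : (0 : ℝ) ∈ {s : ℝ | TC (s + 1) (s - 1) 0 0 0 0 0 ∈ D} := by
    rw [← hcl.closure_eq, Metric.mem_closure_iff]
    intro ε hε
    obtain ⟨s, hs, hlt⟩ := not_bddAbove_iff.1 hunb ε⁻¹
    have hs0 : 0 < s := lt_trans (inv_pos.2 hε) hlt
    refine ⟨s⁻¹, ?_, ?_⟩
    · have := h.smul _ hs s⁻¹ (by positivity)
      rw [TC_smul] at this
      simp only [Set.mem_ofPred_eq]
      convert this using 2 <;> field_simp <;> ring
    · rw [Real.dist_eq, zero_sub, abs_neg, abs_of_pos (inv_pos.2 hs0)]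
      exact inv_lt_of_inv_lt₀ hε hlt
  simp only [Set.mem_ofPred_eq] at this
  norm_num at this ⊢
  exact this

theorem Good.Pmem {D : Set (CurvOp 4)} (h : Good D) : TC 1 0 (-1) 0 0 0 0 ∈ D := by
  -- Z = (Z0 - Z0')/3 = (1,1,-1,-1,0,0); V1 = (1,-1,0,0,0,0); -V2 = (0,0,-1,1,0,0)
  have hZ := h.add _ h.Z0 _ (h.s12 h.Z0neg)
  have hV2 : TC 0 0 (-1) 1 0 0 0 ∈ D := h.s03 h.V
  have := h.smul _ (h.add _ (h.add _ (h.smul _ hZ (1 / 3) (by norm_num)) _ h.V) _ hV2) (1 / 2)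
    (by norm_num)
  rw [TC_add, TC_smul, TC_add, TC_add, TC_smul] at this
  norm_num at this ⊢
  exact this

end Pool.Agent.H397Z.Curv
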