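import Pool.Agent.H397Z.FourDyn

namespace Pool.Agent.H397Z.Curv

open Finset Matrix Set Filter Topology

variable {n m : ℕ}

theorem extend (hm : m ≤ n) (A : Matrix (Fin n) (Fin m) ℝ) (hA : Aᵀ * A = 1) :
    ∃ G ∈ Matrix.orthogonalGroup (Fin n) ℝ, ∀ i a, G i (Fin.castLE hm a) = A i a := by
  classical
  let v : Fin n → EuclideanSpace ℝ (Fin n) := fun j =>
    if h : j.val < m then WithLp.toLp 2 (fun i => A i ⟨j.val, h⟩) else 0
  let s : Set (Fin n) := {j | j.val < m}
  have hv : Orthonormal ℝ (s.domRestrict v) := by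
    rw [orthonormal_iff_ite]
    rintro ⟨j, hj⟩ ⟨k, hk⟩
    have hj' : j.val < m := hj
    have hk' : k.val < m := hk
    have := congrFun (congrFun hA ⟨k.val, hk'⟩) ⟨j.val, hj'⟩
    simp only [Matrix.mul_apply, Matrix.transpose_apply, Matrix.one_apply] at this
    simp only [Set.domRestrict_apply, v, dif_pos hj', dif_pos hk', PiLp.inner_apply,
      RCLike.inner_apply, conj_trivial]
    rw [this]
    by_cases h : j = k
    · subst h; simp
    · have h' : ¬ ((⟨k.val, hk'⟩ : Fin m) = ⟨j.val, hj'⟩) := by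
        intro e; apply h; ext; exact (congrArg Fin.val e).symm
      simp [h, h']
  obtain ⟨b, hb⟩ := hv.exists_orthonormalBasis_extension_of_card_eq (by simp)
  refine ⟨Matrix.of fun i j => b j i, ?_, fun i a => ?_⟩
  · rw [Matrix.mem_orthogonalGroup_iff']
    ext j k
    have := (orthonormal_iff_ite.1 b.orthonormal) k j
    simp only [PiLp.inner_apply, RCLike.inner_apply, conj_trivial] at this
    simp only [Matrix.mul_apply, Matrix.transpose_apply, Matrix.of_apply, Matrix.one_apply, this,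
      eq_comm]
  · have ha : (Fin.castLE hm a).val < m := a.2
    rw [Matrix.of_apply, hb _ ha]
    simp only [v, dif_pos ha]
    rfl

/-- The standard isometric inclusion. -/
def incl (hm : m ≤ n) : Matrix (Fin n) (Fin m) ℝ :=
  Matrix.of fun i a => if i = Fin.castLE hm a then 1 else 0

theorem mul_incl (hm : m ≤ n) {r : ℕ} (G : Matrix (Fin r) (Fin n) ℝ) (i : Fin r) (a : Fin m) :
    (G * incl hm) i a = G i (Fin.castLE hm a) := by
  simp [Matrix.mul_apply, incl]

theorem incl_iso (hm : m ≤ n) : (incl hm)ᵀ * incl hm = 1 := by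
  ext a b
  rw [mul_incl]
  simp [incl, Matrix.one_apply, Fin.castLE_inj, eq_comm]

theorem transit (hm : m ≤ n) (A B : Matrix (Fin n) (Fin m) ℝ) (hA : Aᵀ * A = 1)
    (hB : Bᵀ * B = 1) : ∃ g ∈ Matrix.orthogonalGroup (Fin n) ℝ, g * A = B := by
  obtain ⟨G, hG, hGA⟩ := extend hm A hA
  obtain ⟨H, hH, hHB⟩ := extend hm B hB
  have e1 : G * incl hm = A := by ext i a; rw [mul_incl, hGA]
  have e2 : H * incl hm = B := by ext i a; rw [mul_incl, hHB]
  have hG' : Gᵀ * G = 1 := (Matrix.mem_orthogonalGroup_iff' _ _).1 hG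
  have hGt : Gᵀ ∈ Matrix.orthogonalGroup (Fin n) ℝ := by
    rw [Matrix.mem_orthogonalGroup_iff, Matrix.transpose_transpose]; exact hG'
  refine ⟨H * Gᵀ, mul_mem hH hGt, ?_⟩
  rw [← e1, ← e2, Matrix.mul_assoc, ← Matrix.mul_assoc Gᵀ, hG', Matrix.one_mul]

/-- Push-forward along a matrix, as a linear map. -/
def pushL (A : Matrix (Fin n) (Fin m) ℝ) : CurvOp m →ₗ[ℝ] CurvOp n where
  toFun R := ⟨act A R.1, IsCurv.act R.2 A⟩
  map_add' R S := Subtype.ext (act_add A R.1 S.1)
  map_smul' c R := Subtype.ext (act_smul A c R.1)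

theorem pushL_Q {A : Matrix (Fin n) (Fin m) ℝ} (hA : Aᵀ * A = 1) (R : CurvOp m) :
    Q (pushL A R) = pushL A (Q R) := by
  apply Subtype.ext
  change sq (act A R.1) + sharp (act A R.1) = act A (sq R.1 + sharp R.1)
  rw [sq_act hA, sharp_act hA, act_add]

theorem ev_eq_act (R : CurvOp m) (x y z w : Fin m → ℝ) :
    ev R x y z w = act (Matrix.of ![x, y, z, w]) R.1 0 1 2 3 := rfl

theorem ev_pushL (A : Matrix (Fin n) (Fin m) ℝ) (R : CurvOp m) (x y z w : Fin n → ℝ) :
    ev (pushL A R) x y z w = ev R (x ᵥ* A) (y ᵥ* A) (z ᵥ* A) (w ᵥ* A) := by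
  rw [ev_eq_act, ev_eq_act]
  change act _ (act A R.1) 0 1 2 3 = _
  rw [act_act]
  rfl

/-- The rank-one operators `(x ∧ y) ⊗ (z ∧ w)`. -/
def Sx (x y z w : Fin n → ℝ) : Tensor n :=
  fun i j k l => (x i * y j - x j * y i) * (z k * w l - z l * w k)

theorem isCurv_Sx (x y : Fin n → ℝ) : IsCurv (Sx x y x y) :=
  ⟨fun i j k l => by simp only [Sx]; ring, fun i j k l => by simp only [Sx]; ring,
    fun i j k l => by simp only [Sx]; ring⟩

/-- `(x ∧ y) ⊗ (x ∧ y)`. -/
def P (x y : Fin n → ℝ) : CurvOp n := ⟨Sx x y x y, isCurv_Sx x y⟩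

theorem act_prod (A : Matrix (Fin n) (Fin m) ℝ) (x y z w : Fin m → ℝ) (i j k l : Fin n) :
    act A (fun a b c d => x a * y b * z c * w d) i j k l =
      (A *ᵥ x) i * (A *ᵥ y) j * (A *ᵥ z) k * (A *ᵥ w) l := by
  have : ∀ a b c d, A i a * A j b * A k c * A l d * (x a * y b * z c * w d) =
      (A i a * x a) * ((A j b * y b) * ((A k c * z c) * (A l d * w d))) := by
    intros; ring
  simp only [act, Matrix.mulVec, dotProduct, this, ← Finset.mul_sum, ← Finset.sum_mul]
  ring

theorem pushL_P (A : Matrix (Fin n) (Fin m) ℝ) (x y : Fin m → ℝ) :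
    pushL A (P x y) = P (A *ᵥ x) (A *ᵥ y) := by
  apply Subtype.ext
  change act A (Sx x y x y) = Sx _ _ _ _
  have : Sx x y x y = (fun a b c d => x a * y b * x c * y d) -
      (fun a b c d => x a * y b * y c * x d) - (fun a b c d => y a * x b * x c * y d) +
      (fun a b c d => y a * x b * y c * x d) := by
    funext a b c d; simp only [Sx, Pi.add_apply, Pi.sub_apply]; ring
  rw [this, act_add, act_sub, act_sub]
  funext i j k l
  simp only [Sx, Pi.add_apply, Pi.sub_apply, act_prod]; ring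

theorem P_smul (s t : ℝ) (x y : Fin n → ℝ) : P (s • x) (t • y) = (s ^ 2 * t ^ 2) • P x y := by
  apply Subtype.ext
  funext i j k l
  simp only [P, Sx, Pi.smul_apply, smul_eq_mul, Submodule.coe_smul]; ring

theorem P_shear (t : ℝ) (x y : Fin n → ℝ) : P x (y - t • x) = P x y := by
  apply Subtype.ext
  funext i j k l
  simp only [P, Sx, Pi.smul_apply, smul_eq_mul, Pi.sub_apply]; ring

theorem P_comm (x y : Fin n → ℝ) : P x y = P y x := by
  apply Subtype.ext
  funext i j k l
  simp only [P, Sx]; ring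

theorem P_self (x : Fin n → ℝ) : P x x = 0 := by
  apply Subtype.ext
  funext i j k l
  simp only [P, Sx, Submodule.coe_zero, Pi.zero_apply]; ring

/-- A property of pairs stable under scaling that holds for orthonormal pairs. -/
theorem gs {p : (Fin n → ℝ) → (Fin n → ℝ) → Prop} (h0 : ∀ x y, x = 0 ∨ y = 0 → p x y)
    (hs : ∀ (s t : ℝ) x y, p x y → p (s • x) (t • y))
    (hsh : ∀ (t : ℝ) x y, p x (y - t • x) → p x y)
    (ho : ∀ x y, x ⬝ᵥ x = 1 → y ⬝ᵥ y = 1 → x ⬝ᵥ y = 0 → p x y) (x y : Fin n → ℝ) : p x y := by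
  by_cases hx : x = 0
  · exact h0 _ _ (Or.inl hx)
  have hxx : 0 < x ⬝ᵥ x := lt_of_le_of_ne (by simpa using dotProduct_star_self_nonneg x)
    (fun e => hx (dotProduct_self_eq_zero.1 e.symm))
  apply hsh ((x ⬝ᵥ y) / (x ⬝ᵥ x))
  set y' := y - ((x ⬝ᵥ y) / (x ⬝ᵥ x)) • x with hy'
  have hxy : x ⬝ᵥ y' = 0 := by
    rw [hy', dotProduct_sub, dotProduct_smul, smul_eq_mul]; field_simp; ring
  by_cases hy : y' = 0
  · exact h0 _ _ (Or.inr hy)
  have hyy : 0 < y' ⬝ᵥ y' := lt_of_le_of_ne (by simpa using dotProduct_star_self_nonneg y')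
    (fun e => hy (dotProduct_self_eq_zero.1 e.symm))
  have sx : 0 < √(x ⬝ᵥ x) := Real.sqrt_pos.2 hxx
  have sy : 0 < √(y' ⬝ᵥ y') := Real.sqrt_pos.2 hyy
  have := hs (√(x ⬝ᵥ x)) (√(y' ⬝ᵥ y')) _ _ (ho ((√(x ⬝ᵥ x))⁻¹ • x) ((√(y' ⬝ᵥ y'))⁻¹ • y')
    (by
      rw [dotProduct_smul, smul_dotProduct, smul_eq_mul, smul_eq_mul]
      nth_rewrite 3 [← Real.mul_self_sqrt hxx.le]; field_simp)
    (by
      rw [dotProduct_smul, smul_dotProduct, smul_eq_mul, smul_eq_mul]
      nth_rewrite 3 [← Real.mul_self_sqrt hyy.le]; field_simp)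
    (by rw [dotProduct_smul, smul_dotProduct, hxy]; simp))
  rwa [smul_smul, smul_smul, mul_inv_cancel₀ sx.ne', mul_inv_cancel₀ sy.ne', one_smul,
    one_smul] at this

theorem ev_sec_all {R : CurvOp n} (h : SecNonneg R) (x y : Fin n → ℝ) : 0 ≤ ev R x y x y := by
  refine gs (p := fun x y => 0 ≤ ev R x y x y) ?_ ?_ ?_ h x y
  · rintro x y (rfl | rfl) <;> simp [ev]
  · intro s t x y hp
    have : ev R (s • x) (t • y) (s • x) (t • y) = (s * t) ^ 2 * ev R x y x y := by
      simp only [ev, Pi.smul_apply, smul_eq_mul, Finset.mul_sum]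
      refine Finset.sum_congr rfl fun _ _ => Finset.sum_congr rfl fun _ _ =>
        Finset.sum_congr rfl fun _ _ => Finset.sum_congr rfl fun _ _ => by ring
    rw [this]; positivity
  · intro t x y hp
    have hc := IsCurv.act R.2 (Matrix.of ![x, y] : Matrix (Fin 2) (Fin n) ℝ)
    have e1 : ev R x x x y = 0 := by
      have : ev R x x x y = - ev R x x x y := hc.1 0 0 0 1
      linarith
    have e2 : ev R x y x x = 0 := by
      have : ev R x y x x = - ev R x y x x := hc.skew34 0 1 0 0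
      linarith
    have e3 : ev R x x x x = 0 := by
      have : ev R x x x x = - ev R x x x x := hc.1 0 0 0 0
      linarith
    have : ev R x (y - t • x) x (y - t • x) =
        ev R x y x y - t * ev R x x x y - t * ev R x y x x + t ^ 2 * ev R x x x x := by
      simp only [ev, Pi.smul_apply, Pi.sub_apply, smul_eq_mul, Finset.mul_sum,
        ← Finset.sum_sub_distrib, ← Finset.sum_add_distrib]
      refine Finset.sum_congr rfl fun _ _ => Finset.sum_congr rfl fun _ _ =>
        Finset.sum_congr rfl fun _ _ => Finset.sum_congr rfl fun _ _ => by ring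
    rw [this, e1, e2, e3] at hp
    simpa using hp

theorem Good.push {C : Set (CurvOp n)} (h : Good C) (hm : m ≤ n) :
    Good (pushL (incl hm) ⁻¹' C) where
  closed := h.closed.preimage (pushL (incl hm)).continuous_of_finiteDimensional
  add R hR S hS := by
    rw [Set.mem_preimage, map_add]; exact h.add _ hR _ hS
  smul R hR c hc := by
    rw [Set.mem_preimage, map_smul]; exact h.smul _ hR c hc
  orth g hg R hR := by
    have hg' : gᵀ * g = 1 := (Matrix.mem_orthogonalGroup_iff' _ _).1 hg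
    obtain ⟨G, hG, e⟩ := transit hm (incl hm) (incl hm * g) (incl_iso hm) (by
      rw [Matrix.transpose_mul, Matrix.mul_assoc, ← Matrix.mul_assoc (incl hm)ᵀ, incl_iso,
        Matrix.one_mul, hg'])
    have := h.orth G hG _ hR
    have e2 : actOp G (pushL (incl hm) R) = pushL (incl hm) (actOp g R) := by
      apply Subtype.ext
      change act G (act _ R.1) = act _ (act g R.1)
      rw [act_act, act_act, e]
    rwa [e2] at this
  inv γ T hT hγ h0 := by
    refine h.inv (fun t => pushL (incl hm) (γ t)) T hT (fun t ht => ?_) h0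
    rw [pushL_Q (incl_iso hm)]
    exact (LinearMap.toContinuousLinearMap (pushL (incl hm))).hasFDerivAt.comp_hasDerivWithinAt
      t (hγ t ht)
  sec R hR := by
    refine h.sec _ fun x y _ _ _ => ?_
    rw [ev_pushL]; exact ev_sec_all hR _ _

/-- Basis vectors. -/
def e (i : Fin n) : Fin n → ℝ := fun a => if a = i then 1 else 0

theorem mulVec_e {r : ℕ} (A : Matrix (Fin r) (Fin n) ℝ) (i : Fin n) :
    A *ᵥ e i = fun a => A a i := by
  funext a; simp [Matrix.mulVec, dotProduct, e]

theorem TC_P : TC 1 0 (-1) 0 0 0 0 = P (e 0) (e 1) - P (e 0) (e 2) := by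
  apply Subtype.ext
  have : ∀ i j k l, T 1 0 (-1) 0 0 0 0 i j k l =
      Sx (e 0) (e 1) (e 0) (e 1) i j k l - Sx (e 0) (e 2) (e 0) (e 2) i j k l := by
    simp [forall_four, Sx, e]
  funext i j k l; exact this i j k l

theorem Good.diff {C : Set (CurvOp n)} (h : Good C) (hn : 4 ≤ n) {x y z : Fin n → ℝ}
    (hx : x ⬝ᵥ x = 1) (hy : y ⬝ᵥ y = 1) (hz : z ⬝ᵥ z = 1) (hxy : x ⬝ᵥ y = 0) (hxz : x ⬝ᵥ z = 0)
    (hyz : y ⬝ᵥ z = 0) : P x y - P x z ∈ C := by
  have h4 : pushL (incl hn) (TC 1 0 (-1) 0 0 0 0) ∈ C := (h.push hn).Pmem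
  rw [TC_P, map_sub, pushL_P, pushL_P] at h4
  have h3 : 3 ≤ n := by omega
  let B : Matrix (Fin n) (Fin 3) ℝ := (Matrix.of ![x, y, z])ᵀ
  have hB : Bᵀ * B = 1 := by
    ext a b
    have : (Bᵀ * B) a b = (![x, y, z] a) ⬝ᵥ (![x, y, z] b) := rfl
    rw [this]
    fin_cases a <;> fin_cases b <;>
      simp [hx, hy, hz, hxy, hxz, hyz, dotProduct_comm y x, dotProduct_comm z x,
        dotProduct_comm z y]
  obtain ⟨g, hg, eg⟩ := transit h3 (incl h3) B (incl_iso h3) hB
  have := h.orth g hg _ h4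
  have e2 : ∀ R, actOp g R = pushL g R := fun _ => rfl
  rw [e2, map_sub, pushL_P, pushL_P] at this
  have k : ∀ (a : Fin 3) (a' : Fin 4), a.val = a'.val →
      g *ᵥ (incl hn *ᵥ e a') = ![x, y, z] a := by
    intro a a' haa
    rw [Matrix.mulVec_mulVec, mulVec_e]
    funext i
    rw [mul_incl]
    have := congrFun (congrFun eg i) a
    rw [mul_incl] at this
    have e3 : Fin.castLE hn a' = Fin.castLE h3 a := by ext; simp [haa]
    rw [e3, this]; rfl
  rw [k 0 0 rfl, k 1 1 rfl, k 2 2 rfl] at this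
  exact this

/-- The lineality space of a good cone. -/
def Good.lin {C : Set (CurvOp n)} (h : Good C) : Submodule ℝ (CurvOp n) where
  carrier := {R | R ∈ C ∧ -R ∈ C}
  add_mem' := fun {R S} hR hS => ⟨h.add _ hR.1 _ hS.1, by
    rw [neg_add]; exact h.add _ hR.2 _ hS.2⟩
  zero_mem' := by
    have : (0 : CurvOp n) ∈ C := h.sec _ fun x y _ _ _ => by simp [ev]
    exact ⟨this, by simpa using this⟩
  smul_mem' := fun c R hR => by
    rcases le_total 0 c with hc | hc
    · exact ⟨h.smul _ hR.1 c hc, by rw [← smul_neg]; exact h.smul _ hR.2 c hc⟩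
    · refine ⟨?_, ?_⟩
      · have := h.smul _ hR.2 (-c) (by linarith)
        simpa using this
      · have := h.smul _ hR.1 (-c) (by linarith)
        have e1 : (-c) • R = -(c • R) := neg_smul c R
        exact e1 ▸ this

theorem sum_P_cols {G : Matrix (Fin n) (Fin n) ℝ} (hG : G * Gᵀ = 1) :
    ∑ i, ∑ j, P (fun a => G a i) (fun a => G a j) = (2 : ℝ) • idOp n := by
  apply Subtype.ext
  have hδ : ∀ a b, ∑ i, G a i * G b i = if a = b then 1 else 0 := by
    intro a b
    have := congrFun (congrFun hG a) b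
    simpa [Matrix.mul_apply, Matrix.one_apply] using this
  funext a b c d
  simp only [AddSubmonoidClass.coe_finsetSum, Finset.sum_apply, P, Sx, idOp, idT,
    Submodule.coe_smul, Pi.smul_apply, smul_eq_mul]
  have : ∀ i j, (G a i * G b j - G b i * G a j) * (G c i * G d j - G d i * G c j) =
      (G a i * G c i) * (G b j * G d j) - (G a i * G d i) * (G b j * G c j) -
      (G b i * G c i) * (G a j * G d j) + (G b i * G d i) * (G a j * G c j) := by
    intros; ring
  simp only [this, Finset.sum_add_distrib, Finset.sum_sub_distrib, ← Finset.mul_sum,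
    ← Finset.sum_mul, hδ]
  ring

theorem Good.P_id {C : Set (CurvOp n)} (h : Good C) (hn : 4 ≤ n) {x y : Fin n → ℝ}
    (hx : x ⬝ᵥ x = 1) (hy : y ⬝ᵥ y = 1) (hxy : x ⬝ᵥ y = 0) :
    ((n : ℝ) ^ 2 - n) • h.lin.mkQ (P x y) = (2 : ℝ) • h.lin.mkQ (idOp n) := by
  have h2 : 2 ≤ n := by omega
  let B : Matrix (Fin n) (Fin 2) ℝ := (Matrix.of ![x, y])ᵀ
  have hB : Bᵀ * B = 1 := by
    ext a b
    have : (Bᵀ * B) a b = (![x, y] a) ⬝ᵥ (![x, y] b) := rfl
    rw [this]
    fin_cases a <;> fin_cases b <;> simp [hx, hy, hxy, dotProduct_comm y x]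
  obtain ⟨G, hG, hGB⟩ := extend h2 B hB
  have hG1 : Gᵀ * G = 1 := (Matrix.mem_orthogonalGroup_iff' _ _).1 hG
  have hG2 : G * Gᵀ = 1 := (Matrix.mem_orthogonalGroup_iff _ _).1 hG
  let col : Fin n → Fin n → ℝ := fun i a => G a i
  have hcol : ∀ i j, col i ⬝ᵥ col j = if i = j then 1 else 0 := by
    intro i j
    have := congrFun (congrFun hG1 i) j
    simpa [Matrix.mul_apply, Matrix.one_apply, dotProduct, col] using this
  let c : Fin n → Fin n → (CurvOp n ⧸ h.lin) := fun i j => h.lin.mkQ (P (col i) (col j))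
  have csymm : ∀ i j, c i j = c j i := fun i j => by simp only [c]; rw [P_comm]
  have c1 : ∀ i j k, i ≠ j → i ≠ k → c i j = c i k := by
    intro i j k hij hik
    by_cases hjk : j = k
    · rw [hjk]
    simp only [c, Submodule.mkQ_apply]
    rw [Submodule.Quotient.eq]
    refine ⟨h.diff hn ?_ ?_ ?_ ?_ ?_ ?_, ?_⟩
    iterate 6 simp [hcol, hij, hik, hjk]
    rw [neg_sub]
    refine h.diff hn ?_ ?_ ?_ ?_ ?_ ?_ <;> simp [hcol, hij, hik, Ne.symm hjk]
  have c2 : ∀ i j k l, i ≠ j → k ≠ l → c i j = c k l := by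
    intro i j k l hij hkl
    by_cases hli : l = i
    · subst hli
      rw [c1 l j k hij hkl.symm, csymm l k]
    · rw [c1 i j l hij (Ne.symm hli), csymm i l, c1 l i k hli hkl.symm, csymm l k]
  set i0 : Fin n := Fin.castLE h2 0
  set i1 : Fin n := Fin.castLE h2 1
  have h01 : i0 ≠ i1 := by simp [i0, i1, Fin.castLE_inj]
  have ex : col i0 = x := by funext a; exact hGB a 0
  have ey : col i1 = y := by funext a; exact hGB a 1
  have hs := congrArg h.lin.mkQ (sum_P_cols hG2)
  rw [map_sum, map_smul] at hs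
  simp only [map_sum] at hs
  have hc : ∀ i j, h.lin.mkQ (P (fun a => G a i) (fun a => G a j)) =
      c i0 i1 - if j = i then c i0 i1 else 0 := by
    intro i j
    by_cases hij : j = i
    · subst hij; rw [P_self]; simp
    · rw [if_neg hij, sub_zero]; exact c2 i j i0 i1 (Ne.symm hij) h01
  simp only [hc, Finset.sum_sub_distrib, Finset.sum_ite_eq', Finset.mem_univ, if_true,
    Finset.sum_const, Finset.card_univ, Fintype.card_fin] at hs
  rw [← hs, ← ex, ← ey]
  change _ • c i0 i1 = _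
  simp only [← Nat.cast_smul_eq_nsmul ℝ]
  module

/-- Scalar curvature as a linear map. -/
def scalL (n : ℕ) : CurvOp n →ₗ[ℝ] ℝ where
  toFun := scal
  map_add' R S := by simp [scal, Finset.sum_add_distrib]
  map_smul' c R := by simp [scal, Finset.mul_sum]

theorem scal_P (x y : Fin n → ℝ) :
    scal (P x y) = 2 * ((x ⬝ᵥ x) * (y ⬝ᵥ y) - (x ⬝ᵥ y) ^ 2) := by
  have : ∀ i j, (x i * y j - x j * y i) * (x i * y j - x j * y i) =
      (x i * x i) * (y j * y j) - 2 * ((x i * y i) * (x j * y j)) + (y i * y i) * (x j * x j) := by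
    intros; ring
  simp only [scal, P, Sx, this, dotProduct, Finset.sum_add_distrib, Finset.sum_sub_distrib,
    ← Finset.mul_sum, ← Finset.sum_mul]
  ring

theorem polar (x z y w : Fin n → ℝ) :
    (P (x + z) (y + w) - P (x + z) y - P (x + z) w - P x (y + w) + P x y + P x w -
      P z (y + w) + P z y + P z w).1 = Sx x y z w + Sx x w z y + Sx z y x w + Sx z w x y := by
  funext i j k l
  simp only [P, Sx, Submodule.coe_add, Submodule.coe_sub, Pi.add_apply, Pi.sub_apply]; ring

theorem mem_of_P {U : Submodule ℝ (CurvOp n)} (hU : ∀ x y, P x y ∈ U) (R : CurvOp n) : R ∈ U := by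
  let M : Fin n → Fin n → Fin n → Fin n → CurvOp n := fun a c b d =>
    P (e a + e c) (e b + e d) - P (e a + e c) (e b) - P (e a + e c) (e d) - P (e a) (e b + e d) +
      P (e a) (e b) + P (e a) (e d) - P (e c) (e b + e d) + P (e c) (e b) + P (e c) (e d)
  have hM : ∀ a c b d, M a c b d ∈ U := fun a c b d => by
    simp only [M]
    repeat' first | exact hU _ _ | apply U.add_mem | apply U.sub_mem
  have hδ : ∀ p q r s, ∑ a, ∑ b, ∑ c, ∑ d, R.1 a b c d * (e a p * e b q * e c r * e d s) =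
      R.1 p q r s := by
    intro p q r s; simp [e]
  have key : ∑ a, ∑ b, ∑ c, ∑ d, R.1 a b c d • M a c b d = (12 : ℝ) • R := by
    apply Subtype.ext
    funext i j k l
    simp only [AddSubmonoidClass.coe_finsetSum, Finset.sum_apply, Submodule.coe_smul,
      Pi.smul_apply, smul_eq_mul, M, polar, Pi.add_apply, Sx]
    have : ∀ a b c d, R.1 a b c d *
        ((e a i * e b j - e a j * e b i) * (e c k * e d l - e c l * e d k) +
          (e a i * e d j - e a j * e d i) * (e c k * e b l - e c l * e b k) +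
          (e c i * e b j - e c j * e b i) * (e a k * e d l - e a l * e d k) +
          (e c i * e d j - e c j * e d i) * (e a k * e b l - e a l * e b k)) =
        R.1 a b c d * (e a i * e b j * e c k * e d l) - R.1 a b c d * (e a i * e b j * e c l * e d k)
        - R.1 a b c d * (e a j * e b i * e c k * e d l)
        + R.1 a b c d * (e a j * e b i * e c l * e d k)
        + R.1 a b c d * (e a i * e b l * e c k * e d j)
        - R.1 a b c d * (e a i * e b k * e c l * e d j)
        - R.1 a b c d * (e a j * e b l * e c k * e d i)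
        + R.1 a b c d * (e a j * e b k * e c l * e d i)
        + R.1 a b c d * (e a k * e b j * e c i * e d l)
        - R.1 a b c d * (e a l * e b j * e c i * e d k)
        - R.1 a b c d * (e a k * e b i * e c j * e d l)
        + R.1 a b c d * (e a l * e b i * e c j * e d k)
        + R.1 a b c d * (e a k * e b l * e c i * e d j)
        - R.1 a b c d * (e a l * e b k * e c i * e d j)
        - R.1 a b c d * (e a k * e b l * e c j * e d i)
        + R.1 a b c d * (e a l * e b k * e c j * e d i) := by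
      intros; ring
    simp only [this, Finset.sum_add_distrib, Finset.sum_sub_distrib, hδ]
    have hR : IsCurv R.1 := R.2
    have b := hR.2.2 i j k l
    have t1 := hR.skew34 i j k l
    have t2 := hR.1 i j k l
    have t3 := hR.1 i j l k
    have t4 := hR.skew34 i l j k
    have t5 : R.1 j l k i = R.1 i k l j := by
      rw [hR.2.1 k i j l, hR.1 i k j l, hR.skew34 i k j l]
    have t6 : R.1 j k l i = - R.1 i l j k := by
      rw [hR.2.1 l i j k, hR.1 i l j k]
    have t7 : R.1 k j i l = - R.1 i l j k := by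
      rw [hR.2.1 i l k j, t4]
    have t8 : R.1 l j i k = R.1 i k l j := hR.2.1 i k l j
    have t9 : R.1 k i j l = R.1 i k l j := by
      rw [hR.1 i k j l, hR.skew34 i k j l]
    have t10 : R.1 l i j k = - R.1 i l j k := hR.1 i l j k
    have t11 : R.1 k l i j = R.1 i j k l := hR.2.1 i j k l
    have t12 : R.1 l k i j = R.1 i j l k := hR.2.1 i j l k
    have t13 : R.1 k l j i = R.1 j i k l := hR.2.1 j i k l
    have t14 : R.1 l k j i = R.1 j i l k := hR.2.1 j i l k
    linarith
  have : (12 : ℝ) • R ∈ U := by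
    rw [← key]
    exact U.sum_mem fun a _ => U.sum_mem fun b _ => U.sum_mem fun c _ => U.sum_mem fun d _ =>
      U.smul_mem _ (hM a c b d)
  have := U.smul_mem (1 / 12 : ℝ) this
  rwa [smul_smul, show (1 / 12 : ℝ) * 12 = 1 by norm_num, one_smul] at this

theorem Good.scal_mem {C : Set (CurvOp n)} (h : Good C) (hn : 4 ≤ n) (hI : idOp n ∈ C)
    (R : CurvOp n) (hR : 0 ≤ scal R) : R ∈ C := by
  have hn' : (4 : ℝ) ≤ n := by exact_mod_cast hn
  have hN : 0 < (n : ℝ) ^ 2 - n := by nlinarith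
  let φ : CurvOp n →ₗ[ℝ] (CurvOp n ⧸ h.lin) :=
    ((n : ℝ) ^ 2 - n) • h.lin.mkQ - (scalL n).smulRight (h.lin.mkQ (idOp n))
  have hφ : ∀ x y, P x y ∈ LinearMap.ker φ := by
    refine gs (p := fun x y => P x y ∈ LinearMap.ker φ) ?_ ?_ ?_ ?_
    · rintro x y (rfl | rfl)
      · have := P_smul 0 1 (0 : Fin n → ℝ) y
        simp only [smul_zero, one_smul] at this
        rw [this]; simp
      · have := P_smul 1 0 x (0 : Fin n → ℝ)
        simp only [smul_zero, one_smul] at this
        rw [this]; simp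
    · intro s t x y hp
      rw [P_smul]; exact Submodule.smul_mem _ _ hp
    · intro t x y hp
      rwa [P_shear] at hp
    · intro x y hx hy hxy
      rw [LinearMap.mem_ker]
      have e1 : scalL n (P x y) = 2 := by
        change scal _ = _
        rw [scal_P, hx, hy, hxy]; norm_num
      simp only [φ, LinearMap.sub_apply, LinearMap.smul_apply, LinearMap.smulRight_apply, e1]
      rw [h.P_id hn hx hy hxy, sub_self]
  have hk := mem_of_P hφ R
  rw [LinearMap.mem_ker] at hk
  simp only [φ, LinearMap.sub_apply, LinearMap.smul_apply, LinearMap.smulRight_apply] at hk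
  rw [← map_smul, ← map_smul, ← map_sub, Submodule.mkQ_apply, Submodule.Quotient.mk_eq_zero] at hk
  have h1 := h.add _ hk.1 _ (h.smul _ hI _ hR)
  have h2 := h.smul _ h1 ((n : ℝ) ^ 2 - n)⁻¹ (by positivity)
  have : scalL n R = scal R := rfl
  rwa [this, sub_add_cancel, smul_smul, inv_mul_cancel₀ hN.ne', one_smul] at h2

theorem main (hn : 4 ≤ n) (C : Set (CurvOp n)) (hC : IsCurvCone C) (hne : C ≠ Set.univ)
    (hinv : RFInvariant C) (hsec : ∀ R, SecNonneg R → R ∈ C) : C = {R | 0 ≤ scal R} := by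
  obtain ⟨hcl, hcv, hsm, ho, hI⟩ := hC
  have h0 : (0 : CurvOp n) ∈ C := hsec _ fun x y _ _ _ => by simp [ev]
  have hg : Good C :=
    { closed := hcl
      add := fun R hR S hS => by
        have := hsm _ (hcv hR hS (show (0 : ℝ) ≤ 1 / 2 by norm_num)
          (show (0 : ℝ) ≤ 1 / 2 by norm_num) (by norm_num)) 2 (by norm_num)
        rwa [smul_add, smul_smul, smul_smul, show (2 : ℝ) * (1 / 2) = 1 by norm_num, one_smul,
          one_smul] at this
      smul := fun R hR c hc => by
        rcases hc.eq_or_lt with rfl | hc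
        · simpa using h0
        · exact hsm R hR c hc
      orth := ho
      inv := hinv
      sec := hsec }
  have hsup := hg.scal_mem hn (interior_subset hI)
  refine Set.Subset.antisymm (fun R hR => ?_) hsup
  by_contra hneg
  have hneg' : scal R < 0 := lt_of_not_ge hneg
  apply hne
  refine Set.eq_univ_of_forall fun S => ?_
  rcases le_or_gt 0 (scal S) with hS | hS
  · exact hsup S hS
  · have hc : 0 ≤ scal S / scal R := (div_pos_of_neg_of_neg hS hneg').le
    have h1 : S - (scal S / scal R) • R ∈ C := by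
      apply hsup
      have : scal (S - (scal S / scal R) • R) = scal S - (scal S / scal R) * scal R := by
        change scalL n _ = scalL n S - _ * scalL n R
        rw [map_sub, map_smul, smul_eq_mul]
      rw [this, div_mul_cancel₀ _ hneg'.ne, sub_self]
    have := hg.add _ h1 _ (hg.smul _ hR _ hc)
    rwa [sub_add_cancel] at this

theorem scal_Q (R : CurvOp n) : scal (Q R) = ∑ p, ∑ q, (∑ i, R.1 i p i q) ^ 2 := by
  have hR : IsCurv R.1 := R.2
  have e1 : ∑ i, ∑ j, sq R.1 i j i j = (1 / 2 : ℝ) * ∑ i, ∑ j, Bt R.1 i j i j := by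
    simp only [sq, Bt, ← Finset.mul_sum]
    congr 1
    exact Finset.sum_congr rfl fun i _ => Finset.sum_comm
  have e2 : ∑ i, ∑ j, sq R.1 i j i j = ∑ i, ∑ j, Bt R.1 i j i j - ∑ i, ∑ j, Bt R.1 i j j i := by
    simp only [hR.sq_Bt, Finset.sum_sub_distrib]
  have e3 : ∑ i, ∑ j, Bt R.1 i i j j = ∑ p, ∑ q, (∑ i, R.1 i p i q) ^ 2 := by
    simp only [Bt, pow_two, Finset.sum_mul_sum]
    calc ∑ i, ∑ j, ∑ p, ∑ q, R.1 i p i q * R.1 j p j q
        = ∑ i, ∑ p, ∑ q, ∑ j, R.1 i p i q * R.1 j p j q := by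
          refine Finset.sum_congr rfl fun i _ => ?_
          rw [Finset.sum_comm]
          exact Finset.sum_congr rfl fun p _ => Finset.sum_comm
      _ = ∑ p, ∑ q, ∑ i, ∑ j, R.1 i p i q * R.1 j p j q := by
          rw [Finset.sum_comm]
          exact Finset.sum_congr rfl fun p _ => Finset.sum_comm
  have e4 : scal (Q R) = ∑ i, ∑ j, sq R.1 i j i j + (∑ i, ∑ j, Bt R.1 i i j j -
      ∑ i, ∑ j, Bt R.1 i j j i) := by
    simp only [scal, Q, Pi.add_apply, sharp_Bt, Finset.sum_add_distrib, Finset.sum_sub_distrib]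
  rw [e4, ← e3]; linarith

theorem scal_act {g : Matrix (Fin n) (Fin n) ℝ} (hg : g ∈ Matrix.orthogonalGroup (Fin n) ℝ)
    (R : CurvOp n) : scal (actOp g R) = scal R := by
  have hg' : gᵀ * g = 1 := (Matrix.mem_orthogonalGroup_iff' _ _).1 hg
  let φ : CurvOp n →ₗ[ℝ] ℝ := (scalL n).comp (pushL g) - scalL n
  have hφ : ∀ x y, P x y ∈ LinearMap.ker φ := by
    intro x y
    rw [LinearMap.mem_ker]
    have hd : ∀ u v : Fin n → ℝ, (g *ᵥ u) ⬝ᵥ (g *ᵥ v) = u ⬝ᵥ v := by
      intro u v
      rw [Matrix.dotProduct_mulVec, Matrix.vecMul_mulVec, hg', Matrix.vecMul_one]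
    change scal (pushL g (P x y)) - scal (P x y) = 0
    rw [pushL_P, scal_P, scal_P, hd, hd, hd, sub_self]
  have := mem_of_P hφ R
  rw [LinearMap.mem_ker] at this
  exact sub_eq_zero.1 this

theorem scal_id : scal (idOp n) = (n : ℝ) ^ 2 - n := by
  simp [scal, idOp, idT, Finset.sum_sub_distrib, pow_two]

theorem scal_cone (hn : 2 ≤ n) :
    IsCurvCone {R : CurvOp n | 0 ≤ scal R} ∧ {R : CurvOp n | 0 ≤ scal R} ≠ Set.univ ∧
      RFInvariant {R : CurvOp n | 0 ≤ scal R} ∧
      ∀ R : CurvOp n, SecNonneg R → R ∈ {R : CurvOp n | 0 ≤ scal R} := by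
  have hn' : (2 : ℝ) ≤ n := by exact_mod_cast hn
  have hN : 0 < (n : ℝ) ^ 2 - n := by nlinarith
  have hc : Continuous (scal : CurvOp n → ℝ) := (scalL n).continuous_of_finiteDimensional
  refine ⟨⟨isClosed_le continuous_const hc, ?_, ?_, ?_, ?_⟩, ?_, ?_, ?_⟩
  · exact (convex_Ici (0 : ℝ)).linear_preimage (scalL n)
  · intro R hR c hc
    change 0 ≤ scalL n (c • R)
    rw [map_smul]; exact mul_nonneg hc.le hR
  · intro g hg R hR
    change 0 ≤ scal (actOp g R)
    rw [scal_act hg]; exact hR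
  · refine mem_interior.2 ⟨{R | 0 < scal R}, fun R (hR : 0 < scal R) => (hR.le : 0 ≤ scal R),
      isOpen_lt continuous_const hc, ?_⟩
    change 0 < scal (idOp n)
    rw [scal_id]; exact hN
  · intro h
    have : -idOp n ∈ {R : CurvOp n | 0 ≤ scal R} := h ▸ Set.mem_univ _
    change 0 ≤ scalL n (-idOp n) at this
    rw [map_neg] at this
    have e1 : scalL n (idOp n) = (n : ℝ) ^ 2 - n := scal_id
    linarith
  · intro γ T hT hγ h0
    have hd : ∀ t ∈ Set.Icc (0 : ℝ) T,
        HasDerivWithinAt (fun t => scal (γ t)) (scal (Q (γ t))) (Set.Icc 0 T) t := fun t ht =>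
      (LinearMap.toContinuousLinearMap (scalL n)).hasFDerivAt.comp_hasDerivWithinAt t (hγ t ht)
    have hm : MonotoneOn (fun t => scal (γ t)) (Set.Icc 0 T) := by
      refine monotoneOn_of_hasDerivWithinAt_nonneg (convex_Icc 0 T)
        (fun t ht => (hd t ht).continuousWithinAt)
        (fun t ht => (hd t (interior_subset ht)).mono interior_subset) (fun t _ => ?_)
      rw [scal_Q]; positivity
    exact le_trans h0 (hm ⟨le_rfl, hT⟩ ⟨hT, le_rfl⟩ hT)
  · intro R hR
    change 0 ≤ scal R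
    refine Finset.sum_nonneg fun i _ => Finset.sum_nonneg fun j _ => ?_
    have := ev_sec_all hR (e i) (e j)
    simpa [ev, e] using this

theorem main_iff (hn : 4 ≤ n) (C : Set (CurvOp n)) :
    (IsCurvCone C ∧ C ≠ Set.univ ∧ RFInvariant C ∧ ∀ R, SecNonneg R → R ∈ C) ↔
      C = {R | 0 ≤ scal R} :=
  ⟨fun h => main hn C h.1 h.2.1 h.2.2.1 h.2.2.2, fun h => h ▸ scal_cone (by omega)⟩

end Pool.Agent.H397Z.Curv
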